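import Mathlib

open Complex MeasureTheory Filter Topology Finset

namespace Pool.Agent.PC

/-- the closed right half plane -/
def Rhp : Set ℂ := {z | 0 ≤ z.re}

/-- the open right half plane -/
def rhp : Set ℂ := {z | 0 < z.re}

/-- infinity inside the closed right half plane -/
noncomputable def infR : Filter ℂ := Bornology.cobounded ℂ ⊓ 𝓟 Rhp

lemma eventually_infR {p : ℂ → Prop} : (∀ᶠ z in infR, p z) ↔ ∃ R : ℝ, ∀ z, R ≤ ‖z‖ → 0 ≤ z.re → p z := by
  unfold infR
  rw [(hasBasis_cobounded_norm.inf_principal Rhp).eventually_iff]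
  constructor
  · rintro ⟨R, _, h⟩
    exact ⟨R, fun z h1 h2 => h ⟨h1, h2⟩⟩
  · rintro ⟨R, h⟩
    exact ⟨R, trivial, fun z hz => h z hz.1 hz.2⟩

lemma isOpen_rhp : IsOpen rhp := isOpen_lt continuous_const Complex.continuous_re

lemma rhp_subset : rhp ⊆ Rhp := fun z (hz : 0 < z.re) => (le_of_lt hz : 0 ≤ z.re)

/-- Cauchy-Goursat in the right half plane. -/
lemma tendsto_integral_axis {h : ℂ → ℂ} (hc : ContinuousOn h Rhp) (hd : DifferentiableOn ℂ h rhp)
    (hlim : Tendsto (fun z => z * h z) infR (𝓝 0)) :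
    Tendsto (fun T : ℝ => ∫ t in (-T)..T, h (t * I)) atTop (𝓝 0) := by
  rw [Metric.tendsto_atTop]
  intro ε hε
  have h1 : ∀ᶠ z in infR, ‖z * h z‖ < ε / 8 := by
    have := (hlim.norm).eventually_lt_const (show ‖(0 : ℂ)‖ < ε / 8 by simpa using by positivity)
    exact this
  obtain ⟨R, hR⟩ := eventually_infR.1 h1
  refine ⟨max R 1, fun T hT => ?_⟩
  have hTR : R ≤ T := (le_max_left _ _).trans hT
  have hT1 : 1 ≤ T := (le_max_right _ _).trans hT
  have hT0 : 0 < T := by linarith
  have hb : ∀ z : ℂ, T ≤ ‖z‖ → 0 ≤ z.re → ‖h z‖ ≤ ε / 8 / T := by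
    intro z hz hz2
    have h2 := hR z (hTR.trans hz) hz2
    rw [norm_mul] at h2
    rw [le_div_iff₀ hT0]
    have h3 : ‖h z‖ * T ≤ ‖h z‖ * ‖z‖ := mul_le_mul_of_nonneg_left hz (norm_nonneg _)
    linarith [mul_comm ‖h z‖ ‖z‖]
  have hrect := Complex.integral_boundary_rect_eq_zero_of_continuousOn_of_differentiableOn h
    (-(T : ℂ) * I) (T + T * I) (hc.mono ?_) (hd.mono ?_)
  · have e1 : (-(T : ℂ) * I).re = 0 := by simp
    have e2 : (-(T : ℂ) * I).im = -T := by simp
    have e3 : ((T : ℂ) + T * I).re = T := by simp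
    have e4 : ((T : ℂ) + T * I).im = T := by simp
    rw [e1, e2, e3, e4] at hrect
    set A := ∫ x : ℝ in (0 : ℝ)..T, h (x + ((-T : ℝ) : ℂ) * I) with hA
    set B := ∫ x : ℝ in (0 : ℝ)..T, h (x + (T : ℂ) * I) with hB
    set D := ∫ y : ℝ in (-T)..T, h ((T : ℂ) + y * I) with hD
    have e5 : ∫ y : ℝ in (-T)..T, h (((0 : ℝ) : ℂ) + y * I) = ∫ t : ℝ in (-T)..T, h (t * I) := by
      simp
    rw [e5] at hrect
    set S := ∫ t : ℝ in (-T)..T, h (t * I) with hS
    have nA : ‖A‖ ≤ ε / 8 := by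
      have := intervalIntegral.norm_integral_le_of_norm_le_const (a := 0) (b := T)
        (f := fun x : ℝ => h (x + ((-T : ℝ) : ℂ) * I)) (C := ε / 8 / T) (fun x hx => by
          rw [Set.uIoc_of_le hT0.le] at hx
          refine hb _ ?_ (by simpa using hx.1.le)
          have := Complex.abs_im_le_norm ((x : ℂ) + ((-T : ℝ) : ℂ) * I)
          simp only [add_im, ofReal_im, mul_im, I_im, mul_one, I_re, mul_zero, add_zero, zero_add,
            ofReal_re, abs_neg] at this
          rw [abs_of_pos hT0] at this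
          exact this)
      rw [sub_zero, abs_of_pos hT0, div_mul_cancel₀ _ hT0.ne'] at this
      exact this
    have nB : ‖B‖ ≤ ε / 8 := by
      have := intervalIntegral.norm_integral_le_of_norm_le_const (a := 0) (b := T)
        (f := fun x : ℝ => h (x + (T : ℂ) * I)) (C := ε / 8 / T) (fun x hx => by
          rw [Set.uIoc_of_le hT0.le] at hx
          refine hb _ ?_ (by simpa using hx.1.le)
          have := Complex.abs_im_le_norm ((x : ℂ) + (T : ℂ) * I)
          simp only [add_im, ofReal_im, mul_im, I_im, mul_one, I_re, mul_zero, add_zero, zero_add,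
            ofReal_re] at this
          rw [abs_of_pos hT0] at this
          exact this)
      rw [sub_zero, abs_of_pos hT0, div_mul_cancel₀ _ hT0.ne'] at this
      exact this
    have nD : ‖D‖ ≤ ε / 4 := by
      have := intervalIntegral.norm_integral_le_of_norm_le_const (a := -T) (b := T)
        (f := fun y : ℝ => h ((T : ℂ) + y * I)) (C := ε / 8 / T) (fun x hx => by
          refine hb _ ?_ (by simpa using hT0.le)
          have := Complex.abs_re_le_norm ((T : ℂ) + (x : ℂ) * I)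
          simp only [add_re, ofReal_re, mul_re, I_re, mul_zero, ofReal_im, I_im, mul_one, sub_self,
            add_zero] at this
          rw [abs_of_pos hT0] at this
          exact this)
      have e6 : |T - -T| = 2 * T := by rw [abs_of_pos (by linarith)]; ring
      rw [e6] at this
      calc ‖D‖ ≤ ε / 8 / T * (2 * T) := this
        _ = ε / 4 := by field_simp; ring
    have hSeq : I • S = A - B + I • D := by
      linear_combination (-1 : ℂ) * hrect
    have : ‖S‖ ≤ ‖A‖ + ‖B‖ + ‖D‖ := by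
      have e7 : ‖S‖ = ‖I • S‖ := by rw [norm_smul, Complex.norm_I, one_mul]
      rw [e7, hSeq]
      calc ‖A - B + I • D‖ ≤ ‖A - B‖ + ‖I • D‖ := norm_add_le _ _
        _ ≤ ‖A‖ + ‖B‖ + ‖D‖ := by
          rw [norm_smul, Complex.norm_I, one_mul]
          gcongr
          exact norm_sub_le _ _
    rw [dist_zero_right]
    linarith
  · intro z hz
    have h2 : z.re ∈ Set.uIcc (-(T : ℂ) * I).re ((T : ℂ) + T * I).re := hz.1
    have e1 : (-(T : ℂ) * I).re = 0 := by simp
    have e3 : ((T : ℂ) + T * I).re = T := by simp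
    rw [e1, e3, Set.uIcc_of_le hT0.le] at h2
    exact h2.1
  · intro z hz
    have h2 : z.re ∈ Set.Ioo (min (-(T : ℂ) * I).re ((T : ℂ) + T * I).re)
      (max (-(T : ℂ) * I).re ((T : ℂ) + T * I).re) := hz.1
    have e1 : (-(T : ℂ) * I).re = 0 := by simp
    have e3 : ((T : ℂ) + T * I).re = T := by simp
    rw [e1, e3, min_eq_left hT0.le] at h2
    exact h2.1

lemma tendsto_arctan_axis {a : ℝ} (ha : 0 < a) :
    Tendsto (fun T : ℝ => ∫ t in (-T)..T, 2 * a / (a ^ 2 + t ^ 2)) atTop (𝓝 (2 * Real.pi)) := by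
  have h1 : ∀ T : ℝ, ∫ t in (-T)..T, 2 * a / (a ^ 2 + t ^ 2) = 4 * Real.arctan (T / a) := by
    intro T
    have hd : ∀ t ∈ Set.uIcc (-T) T, HasDerivAt (fun t => 2 * Real.arctan (t / a))
        (2 * a / (a ^ 2 + t ^ 2)) t := by
      intro t _
      have h2 := ((hasDerivAt_id t).div_const a).arctan.const_mul 2
      refine h2.congr_deriv ?_
      simp only [id]
      have : (0 : ℝ) < a ^ 2 + t ^ 2 := by positivity
      field_simp
    rw [intervalIntegral.integral_eq_sub_of_hasDerivAt hd]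
    · rw [neg_div, Real.arctan_neg]; ring
    · apply Continuous.intervalIntegrable
      refine continuous_const.div (by fun_prop) (fun t => ?_)
      positivity
  simp only [h1]
  have h2 : Tendsto (fun T : ℝ => T / a) atTop atTop := tendsto_id.atTop_div_const ha
  have h3 := (Real.tendsto_arctan_atTop.comp h2).mono_right nhdsWithin_le_nhds
  have h4 := h3.const_mul 4
  have e : 4 * (Real.pi / 2) = 2 * Real.pi := by ring
  rw [e] at h4
  exact h4

/-- Cauchy formula along the imaginary axis. -/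
lemma tendsto_axis_pole {g : ℂ → ℂ} (hc : ContinuousOn g Rhp) (hd : DifferentiableOn ℂ g rhp)
    (hlim : Tendsto g infR (𝓝 0)) {a : ℝ} (ha : 0 < a) :
    Tendsto (fun T : ℝ => ∫ t in (-T)..T, g (t * I) / ((a : ℂ) - t * I)) atTop
      (𝓝 (2 * Real.pi * g a)) := by
  have haR : (a : ℂ) ∈ rhp := by simpa [rhp] using ha
  have hRn : Rhp ∈ 𝓝 (a : ℂ) := Filter.mem_of_superset (isOpen_rhp.mem_nhds haR) rhp_subset
  have hne : ∀ z ∈ Rhp, (a : ℂ) + z ≠ 0 := by
    intro z hz h
    have h1 := congrArg Complex.re h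
    have hz' : 0 ≤ z.re := hz
    simp at h1
    linarith
  set u : ℂ → ℂ := fun z => g z - g a * (2 * a / (a + z)) with hu
  have hua : u a = 0 := by
    have : (a : ℂ) ≠ 0 := by exact_mod_cast ha.ne'
    simp only [hu]
    have e : (2 * (a : ℂ) / (a + a)) = 1 := by field_simp; ring
    rw [e]; ring
  have huc : ContinuousOn u Rhp := by
    refine hc.sub (continuousOn_const.mul (continuousOn_const.div ?_ hne))
    exact (continuous_const.add continuous_id).continuousOn
  have hud : DifferentiableOn ℂ u rhp := by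
    refine hd.sub ((differentiableOn_const _).mul ((differentiableOn_const _).div ?_
      (fun z hz => hne z (rhp_subset hz))))
    exact ((differentiable_const _).add differentiable_id).differentiableOn
  have hda : DifferentiableAt ℂ u a := hud.differentiableAt (isOpen_rhp.mem_nhds haR)
  have hdc : ContinuousOn (dslope u a) Rhp := (continuousOn_dslope hRn).2 ⟨huc, hda⟩
  have hdd : DifferentiableOn ℂ (dslope u a) rhp :=
    (Complex.differentiableOn_dslope (isOpen_rhp.mem_nhds haR)).2 hud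
  have hcob : Tendsto (fun z : ℂ => ‖z‖) infR atTop := by
    refine (tendsto_norm_cobounded_atTop).mono_left inf_le_left
  have hinv : ∀ b : ℂ, Tendsto (fun z : ℂ => (z - b)⁻¹) infR (𝓝 0) := by
    intro b
    refine Tendsto.mono_left ?_ (inf_le_left : infR ≤ Bornology.cobounded ℂ)
    exact tendsto_inv₀_cobounded.comp (tendsto_sub_const_cobounded b)
  have hulim : Tendsto u infR (𝓝 0) := by
    have h1 : Tendsto (fun z : ℂ => g z - g a * (2 * a * (z - (-a))⁻¹)) infR
        (𝓝 (0 - g a * (2 * a * 0))) :=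
      hlim.sub (((hinv (-a)).const_mul _).const_mul _)
    simp only [mul_zero, sub_zero] at h1
    refine h1.congr (fun z => ?_)
    simp only [hu, div_eq_mul_inv, sub_neg_eq_add, add_comm z]
  have hratio : Tendsto (fun z : ℂ => z * (z - a)⁻¹) infR (𝓝 1) := by
    have h1 : Tendsto (fun z : ℂ => 1 + a * (z - a)⁻¹) infR (𝓝 (1 + a * 0)) :=
      tendsto_const_nhds.add ((hinv a).const_mul _)
    rw [mul_zero, add_zero] at h1
    refine h1.congr' ?_
    have : ∀ᶠ z in infR, a + 1 ≤ ‖z‖ := hcob.eventually_ge_atTop _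
    refine this.mono (fun z hz => ?_)
    have hza : z - a ≠ 0 := by
      intro h
      have : z = a := by linear_combination h
      rw [this, Complex.norm_real, Real.norm_of_nonneg ha.le] at hz
      linarith
    field_simp
    ring
  have hdlim : Tendsto (fun z => z * dslope u a z) infR (𝓝 0) := by
    have h1 := hratio.mul hulim
    rw [mul_zero] at h1
    refine h1.congr' ?_
    have : ∀ᶠ z in infR, a + 1 ≤ ‖z‖ := hcob.eventually_ge_atTop _
    refine this.mono (fun z hz => ?_)
    have hza : z ≠ a := by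
      intro h
      rw [h, Complex.norm_real, Real.norm_of_nonneg ha.le] at hz
      linarith
    beta_reduce
    rw [dslope_of_ne _ hza, slope_def_field, hua, sub_zero]
    simp only [div_eq_mul_inv]
    ring
  have key := tendsto_integral_axis hdc hdd hdlim
  have harc := tendsto_arctan_axis ha
  have harc' : Tendsto (fun T : ℝ => g a * ((∫ t in (-T)..T, 2 * a / (a ^ 2 + t ^ 2) : ℝ) : ℂ))
      atTop (𝓝 (g a * ((2 * Real.pi : ℝ) : ℂ))) :=
    ((Complex.continuous_ofReal.tendsto _).comp harc).const_mul _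
  have hfin := harc'.sub key
  have e0 : g a * ((2 * Real.pi : ℝ) : ℂ) - 0 = 2 * Real.pi * g a := by push_cast; ring
  rw [e0] at hfin
  refine hfin.congr (fun T => ?_)
  rw [← intervalIntegral.integral_ofReal, ← intervalIntegral.integral_const_mul,
    ← intervalIntegral.integral_sub]
  · refine intervalIntegral.integral_congr (fun t _ => ?_)
    have hta : ((t : ℂ) * I) ≠ a := by
      intro h
      have := congrArg Complex.re h
      simp at this
      linarith
    have h1 : (a : ℂ) + t * I ≠ 0 := by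
      intro h
      have := congrArg Complex.re h
      simp at this
      linarith
    have h2 : (a : ℂ) - t * I ≠ 0 := by
      intro h
      have := congrArg Complex.re h
      simp at this
      linarith
    have h2' : (t : ℂ) * I - a ≠ 0 := by
      intro h
      apply h2
      linear_combination -h
    have h3 : ((a ^ 2 + t ^ 2 : ℝ) : ℂ) = (a + t * I) * (a - t * I) := by
      push_cast
      linear_combination ((t : ℂ) ^ 2) * Complex.I_sq
    rw [dslope_of_ne _ hta, slope_def_field, hua, sub_zero]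
    simp only [hu]
    rw [Complex.ofReal_div, h3]
    push_cast
    have h4 : (t : ℂ) * I - a = -(a - t * I) := by ring
    rw [h4]
    field_simp
    ring
  · apply Continuous.intervalIntegrable
    refine continuous_const.mul (Complex.continuous_ofReal.comp ?_)
    refine continuous_const.div (by fun_prop) (fun t => ?_)
    positivity
  · apply Continuous.intervalIntegrable
    refine hdc.comp_continuous (by fun_prop) (fun t => ?_)
    simp [Rhp]

/-- `Y(z) = ∑ y_k / (x_k + z)` -/
noncomputable def Yf (s : Finset ℕ) (x y : ℕ → ℝ) (z : ℂ) : ℂ :=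
  ∑ k ∈ s, (y k : ℂ) / ((x k : ℂ) + z)

lemma Yf_conj (s : Finset ℕ) (x y : ℕ → ℝ) (t : ℝ) :
    Yf s x y (-(t * I)) = (starRingEnd ℂ) (Yf s x y (t * I)) := by
  unfold Yf
  rw [map_sum]
  refine Finset.sum_congr rfl (fun k _ => ?_)
  simp

lemma add_ne_zero_of_Rhp {a : ℝ} (ha : 0 < a) {z : ℂ} (hz : z ∈ Rhp) : (a : ℂ) + z ≠ 0 := by
  intro h
  have h1 := congrArg Complex.re h
  have hz' : 0 ≤ z.re := hz
  simp at h1
  linarith

lemma Yf_continuousOn {s : Finset ℕ} {x y : ℕ → ℝ} (hx : ∀ k ∈ s, 0 < x k) :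
    ContinuousOn (Yf s x y) Rhp := by
  unfold Yf
  refine continuousOn_finsetSum _ (fun k hk => ?_)
  exact continuousOn_const.div (by fun_prop) (fun z hz => add_ne_zero_of_Rhp (hx k hk) hz)

lemma Yf_differentiableOn {s : Finset ℕ} {x y : ℕ → ℝ} (hx : ∀ k ∈ s, 0 < x k) :
    DifferentiableOn ℂ (Yf s x y) rhp := by
  unfold Yf
  refine DifferentiableOn.fun_sum (fun k hk => ?_)
  exact (differentiableOn_const _).div (by fun_prop)
    (fun z hz => add_ne_zero_of_Rhp (hx k hk) (rhp_subset hz))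

lemma axis_mem (t : ℝ) : (t : ℂ) * I ∈ Rhp := by simp [Rhp]

/-- the form as an integral over the imaginary axis -/
theorem pick_tendsto {G : ℂ → ℂ} (hc : ContinuousOn G Rhp) (hd : DifferentiableOn ℂ G rhp)
    {s : Finset ℕ} {x y : ℕ → ℝ} (hx : ∀ k ∈ s, 0 < x k)
    (hlim : Tendsto (fun z => G z * Yf s x y z) infR (𝓝 0)) :
    Tendsto (fun T : ℝ => ∫ t in (-T)..T, (G (t * I)).re * Complex.normSq (Yf s x y (t * I)))
      atTop (𝓝 (2 * Real.pi * ∑ k ∈ s, ∑ j ∈ s, y k * y j * (G (x k)).re / (x j + x k))) := by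
  have hgc : ContinuousOn (fun z => G z * Yf s x y z) Rhp := hc.mul (Yf_continuousOn hx)
  have hgd : DifferentiableOn ℂ (fun z => G z * Yf s x y z) rhp := hd.mul (Yf_differentiableOn hx)
  have h1 : Tendsto (fun T : ℝ => ∑ k ∈ s, (y k : ℂ) * ∫ t in (-T)..T,
      G (t * I) * Yf s x y (t * I) / ((x k : ℂ) - t * I)) atTop
      (𝓝 (∑ k ∈ s, (y k : ℂ) * (2 * Real.pi * (G (x k) * Yf s x y (x k))))) :=
    tendsto_finsetSum _ (fun k hk => (tendsto_axis_pole hgc hgd hlim (hx k hk)).const_mul _)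
  have h2 := (Complex.continuous_re.tendsto _).comp h1
  have e1 : (∑ k ∈ s, (y k : ℂ) * (2 * Real.pi * (G (x k) * Yf s x y (x k)))).re =
      2 * Real.pi * ∑ k ∈ s, ∑ j ∈ s, y k * y j * (G (x k)).re / (x j + x k) := by
    rw [Complex.re_sum, Finset.mul_sum]
    refine Finset.sum_congr rfl (fun k _ => ?_)
    have e2 : Yf s x y (x k) = ((∑ j ∈ s, y j / (x j + x k) : ℝ) : ℂ) := by
      unfold Yf
      push_cast
      rfl
    have e3 : (y k : ℂ) * (2 * Real.pi * (G (x k) * ((∑ j ∈ s, y j / (x j + x k) : ℝ) : ℂ))) =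
        ((y k * (2 * Real.pi) * (∑ j ∈ s, y j / (x j + x k)) : ℝ) : ℂ) * G (x k) := by
      push_cast
      ring
    rw [e2, e3, Complex.re_ofReal_mul, Finset.mul_sum, Finset.mul_sum, Finset.sum_mul]
    refine Finset.sum_congr rfl (fun j _ => ?_)
    ring
  rw [e1] at h2
  refine h2.congr (fun T => ?_)
  have hcont : ∀ k ∈ s, Continuous (fun t : ℝ => G (t * I) * Yf s x y (t * I) /
      ((x k : ℂ) - t * I)) := by
    intro k hk
    refine Continuous.div (hgc.comp_continuous (by fun_prop) axis_mem) (by fun_prop) (fun t => ?_)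
    intro h
    have := congrArg Complex.re h
    have hxk := hx k hk
    simp at this
    linarith
  have hGre : (∑ k ∈ s, (y k : ℂ) * ∫ t in (-T)..T,
      G (t * I) * Yf s x y (t * I) / ((x k : ℂ) - t * I)) =
      ∫ t in (-T)..T, G (t * I) * ((Complex.normSq (Yf s x y (t * I)) : ℝ) : ℂ) := by
    simp only [← intervalIntegral.integral_const_mul]
    rw [← intervalIntegral.integral_finsetSum]
    · refine intervalIntegral.integral_congr (fun t _ => ?_)
      have e4 : ∑ k ∈ s, (y k : ℂ) * (G (t * I) * Yf s x y (t * I) / ((x k : ℂ) - t * I)) =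
          G (t * I) * (Yf s x y (t * I) * Yf s x y (-(t * I))) := by
        conv_rhs => rw [Yf.eq_1 s x y (-(t * I)), Finset.mul_sum, Finset.mul_sum]
        refine Finset.sum_congr rfl (fun k _ => ?_)
        rw [← sub_eq_add_neg]
        ring
      rw [e4, Yf_conj, Complex.mul_conj]
    · intro k hk
      exact ((hcont k hk).const_mul _).intervalIntegrable _ _
  simp only [Function.comp]
  rw [hGre]
  have hcont2 : Continuous (fun t : ℝ => G (t * I) * ((Complex.normSq (Yf s x y (t * I)) : ℝ) : ℂ)) := by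
    refine (hc.comp_continuous (by fun_prop) axis_mem).mul ?_
    exact Complex.continuous_ofReal.comp (Complex.continuous_normSq.comp
      ((Yf_continuousOn hx).comp_continuous (by fun_prop) axis_mem))
  have h3 := Complex.reCLM.intervalIntegral_comp_comm (μ := volume)
    (hcont2.intervalIntegrable (-T) T)
  simp only [Complex.reCLM_apply] at h3
  rw [← h3]
  refine intervalIntegral.integral_congr (fun t _ => ?_)
  beta_reduce
  rw [Complex.re_mul_ofReal]

/-- decay of `G Y` -/
lemma lim_mul_Yf {G : ℂ → ℂ} {s : Finset ℕ} {x y : ℕ → ℝ} (hx : ∀ k ∈ s, 0 < x k)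
    (h0 : ∑ k ∈ s, y k = 0) (h1 : ∑ k ∈ s, x k * y k = 0)
    (hG : Tendsto (fun z => G z / z ^ 3) infR (𝓝 0)) :
    Tendsto (fun z => G z * Yf s x y z) infR (𝓝 0) := by
  have hcob : Tendsto (fun z : ℂ => ‖z‖) infR atTop :=
    (tendsto_norm_cobounded_atTop).mono_left inf_le_left
  have hinv : ∀ b : ℂ, Tendsto (fun z : ℂ => (b + z)⁻¹) infR (𝓝 0) := by
    intro b
    refine Tendsto.mono_left ?_ (inf_le_left : infR ≤ Bornology.cobounded ℂ)
    have := tendsto_inv₀_cobounded.comp (tendsto_sub_const_cobounded (-b))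
    refine this.congr (fun z => ?_)
    simp [add_comm]
  have hev : ∀ᶠ z in infR, z ≠ 0 ∧ ∀ k ∈ s, (x k : ℂ) + z ≠ 0 := by
    have h2 : ∀ᶠ z in infR, (1 : ℝ) ≤ ‖z‖ := hcob.eventually_ge_atTop _
    have h3 : ∀ᶠ z in infR, z ∈ Rhp := by
      unfold infR
      exact Filter.mem_inf_of_right (Filter.mem_principal_self _)
    refine (h2.and h3).mono (fun z hz => ⟨?_, fun k hk => add_ne_zero_of_Rhp (hx k hk) hz.2⟩)
    intro h
    have := hz.1
    rw [h, norm_zero] at this
    linarith
  have hk : ∀ k ∈ s, Tendsto (fun z : ℂ => z * (((x k : ℂ) + z)⁻¹)) infR (𝓝 1) := by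
    intro k hk
    have h4 : Tendsto (fun z : ℂ => 1 - x k * ((x k : ℂ) + z)⁻¹) infR (𝓝 (1 - x k * 0)) :=
      tendsto_const_nhds.sub ((hinv (x k)).const_mul _)
    rw [mul_zero, sub_zero] at h4
    refine h4.congr' (hev.mono (fun z hz => ?_))
    have := hz.2 k hk
    field_simp
    ring
  have hsum : Tendsto (fun z : ℂ => ∑ k ∈ s, ((x k : ℂ) ^ 2 * y k) * (z * (((x k : ℂ) + z)⁻¹))) infR
      (𝓝 (∑ k ∈ s, ((x k : ℂ) ^ 2 * y k) * 1)) :=
    tendsto_finsetSum _ (fun k hk' => (hk k hk').const_mul _)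
  have h5 := hG.mul hsum
  rw [zero_mul] at h5
  refine h5.congr' (hev.mono (fun z hz => ?_))
  have hz0 := hz.1
  have e0 : (∑ k ∈ s, (y k : ℂ)) = 0 := by exact_mod_cast h0
  have e1 : (∑ k ∈ s, (x k : ℂ) * y k) = 0 := by exact_mod_cast h1
  have e2 : Yf s x y z = 1 / z ^ 3 * ∑ k ∈ s, ((x k : ℂ) ^ 2 * y k) * (z * (((x k : ℂ) + z)⁻¹)) := by
    have e3 : Yf s x y z = 1 / z ^ 3 * ∑ k ∈ s, ((x k : ℂ) ^ 2 * y k) * (z * (((x k : ℂ) + z)⁻¹)) +
        1 / z * (∑ k ∈ s, (y k : ℂ)) - 1 / z ^ 2 * ∑ k ∈ s, (x k : ℂ) * y k := by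
      unfold Yf
      rw [Finset.mul_sum, Finset.mul_sum, Finset.mul_sum, ← Finset.sum_add_distrib,
        ← Finset.sum_sub_distrib]
      refine Finset.sum_congr rfl (fun k hk' => ?_)
      have := hz.2 k hk'
      field_simp
      ring
    rw [e3, e0, e1]
    ring
  beta_reduce
  rw [e2]
  ring

theorem pick_nonneg {G : ℂ → ℂ} (hc : ContinuousOn G Rhp) (hd : DifferentiableOn ℂ G rhp)
    {s : Finset ℕ} {x y : ℕ → ℝ} (hx : ∀ k ∈ s, 0 < x k)
    (h0 : ∑ k ∈ s, y k = 0) (h1 : ∑ k ∈ s, x k * y k = 0)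
    (hG : Tendsto (fun z => G z / z ^ 3) infR (𝓝 0))
    (hre : ∀ t : ℝ, 0 ≤ (G (t * I)).re) :
    0 ≤ ∑ k ∈ s, ∑ j ∈ s, y k * y j * (G (x k)).re / (x j + x k) := by
  have h2 := pick_tendsto hc hd hx (lim_mul_Yf hx h0 h1 hG)
  have h3 : 0 ≤ 2 * Real.pi * ∑ k ∈ s, ∑ j ∈ s, y k * y j * (G (x k)).re / (x j + x k) := by
    refine ge_of_tendsto h2 ((eventually_ge_atTop 0).mono (fun T hT => ?_))
    exact intervalIntegral.integral_nonneg (by linarith)
      (fun t _ => mul_nonneg (hre t) (Complex.normSq_nonneg _))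
  exact nonneg_of_mul_nonneg_right h3 (by positivity)

/-- a nonzero combination of distinct poles does not vanish on an interval of the axis -/
lemma Yf_ne_zero {s : Finset ℕ} {x y : ℕ → ℝ} (hx : ∀ k ∈ s, 0 < x k) (hinj : Set.InjOn x s)
    {k₀ : ℕ} (hk₀ : k₀ ∈ s) (hy : y k₀ ≠ 0) {a b : ℝ} (hab : a < b) :
    ∃ t ∈ Set.Ioo a b, Yf s x y (t * I) ≠ 0 := by
  by_contra hcon
  push Not at hcon
  -- the numerator polynomial
  set P : Polynomial ℂ := ∑ k ∈ s, Polynomial.C (y k : ℂ) *
    ∏ j ∈ s.erase k, (Polynomial.X + Polynomial.C (x j : ℂ)) with hP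
  have heval : ∀ z : ℂ, (∀ k ∈ s, (x k : ℂ) + z ≠ 0) →
      P.eval z = (∏ j ∈ s, ((x j : ℂ) + z)) * Yf s x y z := by
    intro z hz
    rw [hP, Polynomial.eval_finsetSum]
    unfold Yf
    rw [Finset.mul_sum]
    refine Finset.sum_congr rfl (fun k hk => ?_)
    rw [Polynomial.eval_mul, Polynomial.eval_C, Polynomial.eval_prod,
      ← Finset.mul_prod_erase s _ hk]
    have : ∀ j ∈ s.erase k, Polynomial.eval z (Polynomial.X + Polynomial.C (x j : ℂ)) =
        (x j : ℂ) + z := by
      intro j _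
      simp [add_comm]
    rw [Finset.prod_congr rfl this]
    have h3 := hz k hk
    field_simp
  have hP0 : P = 0 := by
    apply Polynomial.eq_zero_of_infinite_isRoot
    have hinf : ((fun t : ℝ => (t : ℂ) * I) '' Set.Ioo a b).Infinite := by
      apply (Set.Ioo_infinite hab).image
      intro t _ t' _ h
      have := congrArg Complex.im h
      simpa using this
    refine hinf.mono ?_
    rintro z ⟨t, ht, rfl⟩
    show Polynomial.IsRoot P _
    rw [Polynomial.IsRoot, heval _ (fun k hk => add_ne_zero_of_Rhp (hx k hk) (axis_mem t)),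
      hcon t ht, mul_zero]
  have h4 : P.eval (-(x k₀ : ℂ)) = (y k₀ : ℂ) * ∏ j ∈ s.erase k₀, ((x j : ℂ) - x k₀) := by
    rw [hP, Polynomial.eval_finsetSum, Finset.sum_eq_single_of_mem k₀ hk₀]
    · rw [Polynomial.eval_mul, Polynomial.eval_C, Polynomial.eval_prod]
      congr 1
      refine Finset.prod_congr rfl (fun j _ => ?_)
      simp only [Polynomial.eval_add, Polynomial.eval_X, Polynomial.eval_C]
      ring
    · intro k _ hkk
      rw [Polynomial.eval_mul, Polynomial.eval_prod]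
      have : ∏ j ∈ s.erase k, Polynomial.eval (-(x k₀ : ℂ)) (Polynomial.X + Polynomial.C (x j : ℂ))
          = 0 := by
        apply Finset.prod_eq_zero (Finset.mem_erase.2 ⟨hkk.symm, hk₀⟩)
        simp
      rw [this, mul_zero]
  rw [hP0, Polynomial.eval_zero] at h4
  have h5 : (y k₀ : ℂ) ≠ 0 := by exact_mod_cast hy
  have h6 : ∏ j ∈ s.erase k₀, ((x j : ℂ) - x k₀) ≠ 0 := by
    rw [Finset.prod_ne_zero_iff]
    intro j hj h
    have h7 : (x j : ℂ) = x k₀ := by linear_combination h
    have h8 : x j = x k₀ := by exact_mod_cast h7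
    have h9 := Finset.mem_erase.1 hj
    exact h9.1 (hinj (by exact_mod_cast h9.2) (by exact_mod_cast hk₀) h8)
  exact (mul_ne_zero h5 h6) h4.symm

/-- **Pick form.** -/
theorem pick_pos {G : ℂ → ℂ} (hc : ContinuousOn G Rhp) (hd : DifferentiableOn ℂ G rhp)
    {s : Finset ℕ} {x y : ℕ → ℝ} (hx : ∀ k ∈ s, 0 < x k) (hinj : Set.InjOn x s)
    (h0 : ∑ k ∈ s, y k = 0) (h1 : ∑ k ∈ s, x k * y k = 0)
    (hG : Tendsto (fun z => G z / z ^ 3) infR (𝓝 0))
    (hre : ∀ t : ℝ, 0 ≤ (G (t * I)).re) {a b : ℝ} (hab : a < b)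
    (hre' : ∀ t ∈ Set.Ioo a b, 0 < (G (t * I)).re)
    {k₀ : ℕ} (hk₀ : k₀ ∈ s) (hy : y k₀ ≠ 0) :
    0 < ∑ k ∈ s, ∑ j ∈ s, y k * y j * (G (x k)).re / (x j + x k) := by
  have h2 := pick_tendsto hc hd hx (lim_mul_Yf hx h0 h1 hG)
  set f : ℝ → ℝ := fun t => (G (t * I)).re * Complex.normSq (Yf s x y (t * I)) with hf
  have hfc : Continuous f := by
    refine (Complex.continuous_re.comp (hc.comp_continuous (by fun_prop) axis_mem)).mul ?_
    exact Complex.continuous_normSq.comp
      ((Yf_continuousOn hx).comp_continuous (by fun_prop) axis_mem)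
  have hf0 : ∀ t, 0 ≤ f t := fun t => mul_nonneg (hre t) (Complex.normSq_nonneg _)
  obtain ⟨t₀, ht₀, hY⟩ := Yf_ne_zero hx hinj hk₀ hy hab
  have hft₀ : 0 < f t₀ := mul_pos (hre' t₀ ht₀) (Complex.normSq_pos.2 hY)
  set T₀ : ℝ := |t₀| + 1 with hT₀
  have hT₀pos : 0 < T₀ := by positivity
  have h3 : 0 < ∫ t in (-T₀)..T₀, f t := by
    refine intervalIntegral.integral_pos (by linarith) hfc.continuousOn (fun t _ => hf0 t)
      ⟨t₀, ⟨?_, ?_⟩, hft₀⟩
    · have := neg_abs_le t₀
      linarith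
    · have := le_abs_self t₀
      linarith
  have h4 : ∫ t in (-T₀)..T₀, f t ≤
      2 * Real.pi * ∑ k ∈ s, ∑ j ∈ s, y k * y j * (G (x k)).re / (x j + x k) := by
    refine ge_of_tendsto h2 ((eventually_ge_atTop T₀).mono (fun T hT => ?_))
    refine intervalIntegral.integral_mono_interval (by linarith) (by linarith) hT ?_
      (hfc.intervalIntegrable _ _)
    exact Filter.Eventually.of_forall (fun t => hf0 t)
  have h5 := lt_of_lt_of_le h3 h4
  exact pos_of_mul_pos_right h5 (by positivity)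

end Pool.Agent.PC
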