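import Mathlib
import Pool.Agent.PC.Pick
import Pool.Agent.H62LR.Mult

open Complex MeasureTheory Filter Topology Finset

namespace Pool.Agent.PC

open Pool.Agent.H62LR

/-- the algebraic identity at a double zero -/
lemma ident_zero (m : ℕ) (y : ℕ → ℝ) (h0 : ∑ k ∈ range (m + 1), y k = 0)
    (h1 : ∑ k ∈ range (m + 1), (k : ℝ) * y k = 0) :
    ∑ k ∈ range (m + 1), ∑ j ∈ range (m + 1),
      y k * y j * (((k : ℝ) + 1 / 2) ^ 3 - ((k : ℝ) + 1 / 2) / 4) / (j + k + 1) = 0 := by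
  set A := ∑ k ∈ range (m + 1), ∑ j ∈ range (m + 1),
      y k * y j * (((k : ℝ) + 1 / 2) ^ 3 - ((k : ℝ) + 1 / 2) / 4) / (j + k + 1) with hA
  have hA' : A = ∑ k ∈ range (m + 1), ∑ j ∈ range (m + 1),
      y j * y k * (((j : ℝ) + 1 / 2) ^ 3 - ((j : ℝ) + 1 / 2) / 4) / (k + j + 1) := by
    rw [hA, Finset.sum_comm]
  have h2 : A + A = 2 * ((∑ k ∈ range (m + 1), ((k : ℝ) ^ 2 * y k)) * (∑ k ∈ range (m + 1), y k)) -
      (∑ k ∈ range (m + 1), (k : ℝ) * y k) ^ 2 +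
      (∑ k ∈ range (m + 1), (k : ℝ) * y k) * (∑ k ∈ range (m + 1), y k) := by
    nth_rewrite 2 [hA']
    rw [hA, pow_two, Finset.sum_mul_sum, Finset.sum_mul_sum, Finset.sum_mul_sum,
      ← Finset.sum_add_distrib]
    have h3 : 2 * ∑ k ∈ range (m + 1), ∑ j ∈ range (m + 1), (k : ℝ) ^ 2 * y k * y j =
        ∑ k ∈ range (m + 1), ∑ j ∈ range (m + 1), ((k : ℝ) ^ 2 + (j : ℝ) ^ 2) * (y k * y j) := by
      have h4 : ∑ k ∈ range (m + 1), ∑ j ∈ range (m + 1), (k : ℝ) ^ 2 * y k * y j =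
          ∑ k ∈ range (m + 1), ∑ j ∈ range (m + 1), (j : ℝ) ^ 2 * y j * y k :=
        Finset.sum_comm
      have h5 : ∑ k ∈ range (m + 1), ∑ j ∈ range (m + 1), ((k : ℝ) ^ 2 + (j : ℝ) ^ 2) * (y k * y j) =
          ∑ k ∈ range (m + 1), ∑ j ∈ range (m + 1), (k : ℝ) ^ 2 * y k * y j +
          ∑ k ∈ range (m + 1), ∑ j ∈ range (m + 1), (j : ℝ) ^ 2 * y j * y k := by
        rw [← Finset.sum_add_distrib]
        refine Finset.sum_congr rfl (fun k _ => ?_)
        rw [← Finset.sum_add_distrib]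
        exact Finset.sum_congr rfl (fun j _ => by ring)
      rw [h5, ← h4]
      ring
    have h6 : ∑ i ∈ range (m + 1), ∑ j ∈ range (m + 1), (i : ℝ) * y i * y j =
        ∑ i ∈ range (m + 1), ∑ j ∈ range (m + 1), ((i : ℝ) + j) / 2 * (y i * y j) := by
      have h4 : ∑ k ∈ range (m + 1), ∑ j ∈ range (m + 1), (k : ℝ) * y k * y j =
          ∑ k ∈ range (m + 1), ∑ j ∈ range (m + 1), (j : ℝ) * y j * y k :=
        Finset.sum_comm
      have h5 : ∑ k ∈ range (m + 1), ∑ j ∈ range (m + 1), ((k : ℝ) + j) / 2 * (y k * y j) =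
          1 / 2 * (∑ k ∈ range (m + 1), ∑ j ∈ range (m + 1), (k : ℝ) * y k * y j) +
          1 / 2 * ∑ k ∈ range (m + 1), ∑ j ∈ range (m + 1), (j : ℝ) * y j * y k := by
        rw [Finset.mul_sum, Finset.mul_sum, ← Finset.sum_add_distrib]
        refine Finset.sum_congr rfl (fun k _ => ?_)
        rw [Finset.mul_sum, Finset.mul_sum, ← Finset.sum_add_distrib]
        exact Finset.sum_congr rfl (fun j _ => by ring)
      rw [h5, ← h4]
      ring
    rw [h3, h6, ← Finset.sum_sub_distrib, ← Finset.sum_add_distrib]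
    refine Finset.sum_congr rfl (fun k _ => ?_)
    rw [← Finset.sum_add_distrib, ← Finset.sum_sub_distrib, ← Finset.sum_add_distrib]
    refine Finset.sum_congr rfl (fun j _ => ?_)
    have h7 : (0 : ℝ) < (j : ℝ) + k + 1 := by positivity
    have h8 : (k : ℝ) + j + 1 = j + k + 1 := by ring
    rw [h8]
    field_simp
    ring
  rw [h0, h1] at h2
  linarith

/-- at a double zero the energy form vanishes -/
lemma form_zero_of_double (m : ℕ) {X : ℝ} (hX : 0 < X) (y g : ℕ → ℝ) (hg : g m = 0)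
    (hrec : ∀ k < m, ((k : ℝ) + 1) * (k + 3 / 2) * (k + 2) * y (k + 1) = -X * g k * y k)
    (h0 : ∑ k ∈ range (m + 1), y k = 0) (h1 : ∑ k ∈ range (m + 1), (k : ℝ) * y k = 0) :
    ∑ k ∈ range (m + 1), ∑ j ∈ range (m + 1),
      y k * y j * g k / (((j : ℝ) + 1) + ((k : ℝ) + 1)) = 0 := by
  have h2 := ident_zero m y h0 h1
  rw [Finset.sum_range_succ'] at h2
  have h3 : ∑ j ∈ range (m + 1), y 0 * y j * ((((0 : ℕ) : ℝ) + 1 / 2) ^ 3 -
      (((0 : ℕ) : ℝ) + 1 / 2) / 4) / (j + ((0 : ℕ) : ℝ) + 1) = 0 := by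
    apply Finset.sum_eq_zero
    intro j _
    norm_num
  rw [h3, add_zero] at h2
  have h4 : ∑ k ∈ range m, ∑ j ∈ range (m + 1), y (k + 1) * y j *
      ((((k + 1 : ℕ) : ℝ) + 1 / 2) ^ 3 - (((k + 1 : ℕ) : ℝ) + 1 / 2) / 4) /
        (j + ((k + 1 : ℕ) : ℝ) + 1) =
      -X * ∑ k ∈ range m, ∑ j ∈ range (m + 1), y k * y j * g k / (((j : ℝ) + 1) + ((k : ℝ) + 1)) := by
    rw [Finset.mul_sum]
    refine Finset.sum_congr rfl (fun k hk => ?_)
    rw [Finset.mul_sum]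
    refine Finset.sum_congr rfl (fun j _ => ?_)
    have h5 := hrec k (Finset.mem_range.1 hk)
    have h6 : (0 : ℝ) < (j : ℝ) + 1 + ((k : ℝ) + 1) := by positivity
    have h7 : (j : ℝ) + ((k + 1 : ℕ) : ℝ) + 1 = (j : ℝ) + 1 + ((k : ℝ) + 1) := by push_cast; ring
    rw [h7]
    have h8 : y (k + 1) * y j * ((((k + 1 : ℕ) : ℝ) + 1 / 2) ^ 3 - (((k + 1 : ℕ) : ℝ) + 1 / 2) / 4) =
        (((k : ℝ) + 1) * (k + 3 / 2) * (k + 2) * y (k + 1)) * y j := by
      push_cast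
      ring
    rw [h8, h5]
    field_simp
  rw [h4] at h2
  rw [Finset.sum_range_succ]
  have h9 : ∑ j ∈ range (m + 1), y m * y j * g m / (((j : ℝ) + 1) + ((m : ℝ) + 1)) = 0 := by
    apply Finset.sum_eq_zero
    intro j _
    rw [hg]
    simp
  rw [h9, add_zero]
  have h10 : -X ≠ 0 := by linarith
  exact (mul_eq_zero.1 h2).resolve_left h10

/-- minimum principle: a bounded function with nonnegative real part on the axis -/
lemma re_nonneg_of_axis {F : ℂ → ℂ} (hc : ContinuousOn F Rhp) (hd : DifferentiableOn ℂ F rhp)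
    {C : ℝ} (hb : ∀ z ∈ Rhp, ‖F z‖ ≤ C) (hax : ∀ t : ℝ, 0 ≤ (F (t * I)).re) {z : ℂ}
    (hz : z ∈ Rhp) : 0 ≤ (F z).re := by
  have hcl : closure {z : ℂ | 0 < z.re} = Rhp := by
    rw [Complex.closure_setOfPred_lt_re]
    rfl
  have h1 : DiffContOnCl ℂ (fun z => Complex.exp (-F z)) {z | 0 < z.re} := by
    refine ⟨?_, ?_⟩
    · exact (Complex.differentiable_exp.comp_differentiableOn (hd.neg))
    · rw [hcl]
      exact Complex.continuous_exp.comp_continuousOn hc.neg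
  have hnorm : ∀ z ∈ Rhp, ‖Complex.exp (-F z)‖ ≤ Real.exp C := by
    intro z hz
    rw [Complex.norm_exp]
    apply Real.exp_le_exp.2
    have h2 := Complex.abs_re_le_norm (F z)
    have h3 := hb z hz
    have h4 := neg_abs_le (F z).re
    simp only [Complex.neg_re]
    linarith
  have h5 := PhragmenLindelof.right_half_plane_of_bounded_on_real (C := 1) h1 ?_ ?_ ?_
    (show 0 ≤ z.re from hz)
  · rw [Complex.norm_exp] at h5
    have h6 : (-F z).re ≤ 0 := by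
      by_contra h
      push Not at h
      have := Real.one_lt_exp_iff.2 h
      linarith
    simp only [Complex.neg_re] at h6
    linarith
  · refine ⟨1, by norm_num, 0, ?_⟩
    apply Asymptotics.IsBigO.of_bound (Real.exp C)
    have : ∀ᶠ z : ℂ in Bornology.cobounded ℂ ⊓ 𝓟 {z | 0 < z.re}, 0 < z.re :=
      Filter.mem_inf_of_right (Filter.mem_principal_self _)
    refine this.mono (fun z hz => ?_)
    have := hnorm z (le_of_lt hz : 0 ≤ z.re)
    simpa using this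
  · refine ⟨Real.exp C, ?_⟩
    rw [Filter.eventually_map]
    refine (eventually_ge_atTop 0).mono (fun x hx => ?_)
    exact hnorm _ (by simpa [Rhp] using hx)
  · intro t
    rw [Complex.norm_exp]
    apply Real.exp_le_one_iff.2
    have := hax t
    simp only [Complex.neg_re]
    linarith

/-- arguments: if `u, v, w` lie in the closed right half plane and so do `w u`, `w v`, then so does
`w u^(1-θ) v^θ`. -/
lemma re_mean_nonneg {θ : ℝ} (h0 : 0 ≤ θ) (h1 : θ ≤ 1) {u v w : ℂ} (hu : 0 < u.re)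
    (hw : 0 < w.re) (hv : 0 ≤ v.re) (hv0 : v ≠ 0) (hwu : 0 ≤ (w * u).re) (hwv : 0 ≤ (w * v).re) :
    0 ≤ (w * (u ^ ((1 - θ : ℝ) : ℂ) * v ^ (θ : ℂ))).re := by
  have hu0 : u ≠ 0 := by
    intro h; rw [h] at hu; simp at hu
  have hw0 : w ≠ 0 := by
    intro h; rw [h] at hw; simp at hw
  have au := Complex.abs_arg_lt_pi_div_two_iff.2 (Or.inl hu)
  have aw := Complex.abs_arg_lt_pi_div_two_iff.2 (Or.inl hw)
  have av := Complex.abs_arg_le_pi_div_two_iff.2 hv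
  rw [abs_lt] at au aw
  rw [abs_le] at av
  have hpi := Real.pi_pos
  have e1 : (w * u).arg = w.arg + u.arg := by
    rw [Complex.arg_mul_eq_add_arg_iff hw0 hu0]
    constructor <;> linarith
  have e2 : (w * v).arg = w.arg + v.arg := by
    rw [Complex.arg_mul_eq_add_arg_iff hw0 hv0]
    constructor <;> linarith
  have b1 := Complex.abs_arg_le_pi_div_two_iff.2 hwu
  have b2 := Complex.abs_arg_le_pi_div_two_iff.2 hwv
  rw [e1, abs_le] at b1
  rw [e2, abs_le] at b2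
  have hexp : w * (u ^ ((1 - θ : ℝ) : ℂ) * v ^ (θ : ℂ)) =
      Complex.exp (Complex.log w + ((1 - θ : ℝ) : ℂ) * Complex.log u + (θ : ℂ) * Complex.log v) := by
    rw [Complex.exp_add, Complex.exp_add, Complex.exp_log hw0, Complex.cpow_def_of_ne_zero hu0,
      Complex.cpow_def_of_ne_zero hv0]
    rw [mul_comm (Complex.log u), mul_comm (Complex.log v)]
    ring
  rw [hexp, Complex.exp_re]
  refine mul_nonneg (Real.exp_pos _).le ?_
  have e3 : (Complex.log w + ((1 - θ : ℝ) : ℂ) * Complex.log u + (θ : ℂ) * Complex.log v).im =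
      w.arg + (1 - θ) * u.arg + θ * v.arg := by
    simp [Complex.log_im]
  rw [e3]
  apply Real.cos_nonneg_of_neg_pi_div_two_le_of_le
  · nlinarith
  · nlinarith

/-- growth of `G` -/
lemma growth {θ : ℝ} (h0 : 0 ≤ θ) (h1 : θ ≤ 1) {F : ℂ → ℂ} {C : ℝ} (hb : ∀ z ∈ Rhp, ‖F z‖ ≤ C)
    (N : ℝ) :
    Tendsto (fun z : ℂ => ((N : ℂ) - z) * ((z + 1 / 2) ^ ((1 - θ : ℝ) : ℂ) * F z ^ (θ : ℂ)) / z ^ 3)
      infR (𝓝 0) := by
  have hcob : Tendsto (fun z : ℂ => ‖z‖) infR atTop :=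
    (tendsto_norm_cobounded_atTop).mono_left inf_le_left
  have hinv : Tendsto (fun z : ℂ => 4 * max C 1 * ‖z‖⁻¹) infR (𝓝 0) := by
    have := (tendsto_inv_atTop_zero.comp hcob).const_mul (4 * max C 1)
    rw [mul_zero] at this
    exact this
  refine squeeze_zero_norm' ?_ hinv
  have h2 : ∀ᶠ z in infR, (max |N| 1 : ℝ) ≤ ‖z‖ := hcob.eventually_ge_atTop _
  have h3 : ∀ᶠ z in infR, z ∈ Rhp := by
    unfold infR
    exact Filter.mem_inf_of_right (Filter.mem_principal_self _)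
  refine (h2.and h3).mono (fun z hz => ?_)
  obtain ⟨hz1, hz2⟩ := hz
  have hzN : |N| ≤ ‖z‖ := (le_max_left _ _).trans hz1
  have hz1' : 1 ≤ ‖z‖ := (le_max_right _ _).trans hz1
  have hC1 : (1 : ℝ) ≤ max C 1 := le_max_right _ _
  rw [norm_div, norm_mul, norm_mul, norm_pow, Complex.norm_cpow_real, Complex.norm_cpow_real]
  have b1 : ‖(N : ℂ) - z‖ ≤ 2 * ‖z‖ := by
    calc ‖(N : ℂ) - z‖ ≤ ‖(N : ℂ)‖ + ‖z‖ := norm_sub_le _ _
      _ ≤ 2 * ‖z‖ := by rw [Complex.norm_real, Real.norm_eq_abs]; linarith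
  have b2 : ‖z + 1 / 2‖ ^ (1 - θ) ≤ 2 * ‖z‖ := by
    have c1 : ‖z + 1 / 2‖ ≤ 2 * ‖z‖ := by
      calc ‖z + 1 / 2‖ ≤ ‖z‖ + ‖(1 / 2 : ℂ)‖ := norm_add_le _ _
        _ ≤ 2 * ‖z‖ := by
          have : ‖(1 / 2 : ℂ)‖ = 1 / 2 := by simp
          rw [this]; linarith
    calc ‖z + 1 / 2‖ ^ (1 - θ) ≤ (2 * ‖z‖) ^ (1 - θ) :=
          Real.rpow_le_rpow (norm_nonneg _) c1 (by linarith)
      _ ≤ (2 * ‖z‖) ^ (1 : ℝ) := Real.rpow_le_rpow_of_exponent_le (by linarith) (by linarith)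
      _ = 2 * ‖z‖ := Real.rpow_one _
  have b3 : ‖F z‖ ^ θ ≤ max C 1 := by
    calc ‖F z‖ ^ θ ≤ (max C 1) ^ θ :=
          Real.rpow_le_rpow (norm_nonneg _) ((hb z hz2).trans (le_max_left _ _)) h0
      _ ≤ (max C 1) ^ (1 : ℝ) := Real.rpow_le_rpow_of_exponent_le hC1 h1
      _ = max C 1 := Real.rpow_one _
  have hz0 : 0 < ‖z‖ := by linarith
  rw [div_le_iff₀ (by positivity)]
  calc ‖(N : ℂ) - z‖ * (‖z + 1 / 2‖ ^ (1 - θ) * ‖F z‖ ^ θ) ≤
      (2 * ‖z‖) * ((2 * ‖z‖) * max C 1) := by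
        have : 0 ≤ ‖F z‖ ^ θ := Real.rpow_nonneg (norm_nonneg _) _
        gcongr
    _ = 4 * max C 1 * ‖z‖⁻¹ * ‖z‖ ^ 3 := by
        field_simp
        ring

/-- **Finite energy lemma**, abstract form. -/
theorem no_double_F {m : ℕ} {θ : ℝ} (hθ0 : 0 ≤ θ) (hθ1 : θ ≤ 1) {F : ℂ → ℂ}
    (hFc : ContinuousOn F Rhp) (hFd : DifferentiableOn ℂ F rhp) (hF0 : ∀ z ∈ Rhp, F z ≠ 0)
    {C : ℝ} (hb : ∀ z ∈ Rhp, ‖F z‖ ≤ C)
    (hFreal : ∀ x : ℝ, 0 ≤ x → (F x).im = 0)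
    (hax : ∀ t : ℝ, 0 ≤ (F (t * I)).re)
    (hN : ∀ t : ℝ, 0 ≤ (((m : ℂ) + 1 - t * I) * F (t * I)).re)
    {X : ℝ} (hX : 0 < X) {y : ℕ → ℝ} (hy : y 0 ≠ 0)
    (hrec : ∀ k < m, ((k : ℝ) + 1) * (k + 2) * y (k + 1) =
      -X * ((m : ℝ) - k) * ((F ((k : ℂ) + 1)).re / (k + 3 / 2)) ^ θ * y k)
    (h0 : ∑ k ∈ range (m + 1), y k = 0) (h1 : ∑ k ∈ range (m + 1), (k : ℝ) * y k = 0) : False := by
  have hFre : ∀ z ∈ Rhp, 0 ≤ (F z).re := fun z hz => re_nonneg_of_axis hFc hFd hb hax hz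
  have hslit : ∀ z ∈ Rhp, F z ∈ Complex.slitPlane := by
    intro z hz
    rw [Complex.mem_slitPlane_iff]
    rcases (hFre z hz).lt_or_eq with h | h
    · exact Or.inl h
    · right
      intro h2
      exact hF0 z hz (Complex.ext h.symm h2)
  have hslit2 : ∀ z ∈ Rhp, z + 1 / 2 ∈ Complex.slitPlane := by
    intro z hz
    rw [Complex.mem_slitPlane_iff]
    left
    have : 0 ≤ z.re := hz
    simp
    linarith
  have hFpos : ∀ x : ℝ, 0 ≤ x → 0 < (F x).re ∧ F x = (((F x).re : ℝ) : ℂ) := by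
    intro x hx
    have hxR : (x : ℂ) ∈ Rhp := by simpa [Rhp] using hx
    have e : F x = (((F x).re : ℝ) : ℂ) := Complex.ext (by simp) (by simp [hFreal x hx])
    refine ⟨?_, e⟩
    rcases (hFre _ hxR).lt_or_eq with h | h
    · exact h
    · exact absurd (Complex.ext h.symm (hFreal x hx)) (hF0 _ hxR)
  set N : ℝ := (m : ℝ) + 1 with hNdef
  set G : ℂ → ℂ := fun z => ((N : ℂ) - z) * ((z + 1 / 2) ^ ((1 - θ : ℝ) : ℂ) * F z ^ (θ : ℂ)) with hG
  have hGc : ContinuousOn G Rhp := by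
    refine (by fun_prop : ContinuousOn (fun z : ℂ => (N : ℂ) - z) Rhp).mul (ContinuousOn.mul ?_ ?_)
    · exact ContinuousOn.cpow_const (by fun_prop) hslit2
    · exact hFc.cpow_const hslit
  have hGd : DifferentiableOn ℂ G rhp := by
    refine (by fun_prop : DifferentiableOn ℂ (fun z : ℂ => (N : ℂ) - z) rhp).mul
      (DifferentiableOn.mul ?_ ?_)
    · exact DifferentiableOn.cpow_const (by fun_prop) (fun z hz => hslit2 z (rhp_subset hz))
    · exact hFd.cpow_const (fun z hz => hslit z (rhp_subset hz))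
  have hGlim := growth hθ0 hθ1 hb N
  have hNpos : 0 < N := by positivity
  have hGre : ∀ t : ℝ, 0 ≤ (G (t * I)).re := by
    intro t
    refine re_mean_nonneg hθ0 hθ1 (by simp) (by simpa using hNpos) (hFre _ (axis_mem t))
      (hF0 _ (axis_mem t)) ?_ ?_
    · simp
      nlinarith [sq_nonneg t]
    · have := hN t
      rw [hNdef]
      push_cast
      exact this
  have hGval : ∀ x : ℝ, 0 ≤ x → (G x).re = (N - x) * ((x + 1 / 2) ^ (1 - θ) * (F x).re ^ θ) := by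
    intro x hx
    obtain ⟨h2, h3⟩ := hFpos x hx
    simp only [hG]
    rw [h3]
    have e1 : ((x : ℂ) + 1 / 2) = ((x + 1 / 2 : ℝ) : ℂ) := by push_cast; ring
    rw [e1, ← Complex.ofReal_cpow (by positivity), ← Complex.ofReal_cpow h2.le]
    rw [← Complex.ofReal_mul, ← Complex.ofReal_sub, ← Complex.ofReal_mul, Complex.ofReal_re,
      Complex.ofReal_re]
  have hG0 : 0 < (G ((0 : ℝ) * I)).re := by
    have e1 : (((0 : ℝ) : ℂ) * I) = ((0 : ℝ) : ℂ) := by simp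
    rw [e1, hGval 0 le_rfl]
    obtain ⟨h2, _⟩ := hFpos 0 le_rfl
    have := Real.rpow_pos_of_pos h2 θ
    positivity
  have hcont : Continuous (fun t : ℝ => (G (t * I)).re) :=
    Complex.continuous_re.comp (hGc.comp_continuous (by fun_prop) axis_mem)
  have hev : ∀ᶠ t : ℝ in 𝓝 0, 0 < (G (t * I)).re :=
    hcont.continuousAt.eventually_const_lt hG0
  obtain ⟨δ, hδ, hδ2⟩ := Metric.eventually_nhds_iff.1 hev
  have hpos := pick_pos (s := range (m + 1)) (x := fun k => (k : ℝ) + 1) (y := y) hGc hGd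
    (fun k _ => by positivity) (fun a _ b _ h => by simpa using h) h0
    (by
      have : ∑ k ∈ range (m + 1), ((k : ℝ) + 1) * y k =
          ∑ k ∈ range (m + 1), (k : ℝ) * y k + ∑ k ∈ range (m + 1), y k := by
        rw [← Finset.sum_add_distrib]
        exact Finset.sum_congr rfl (fun k _ => by ring)
      rw [this, h0, h1, add_zero])
    hGlim hGre (a := -δ) (b := δ) (by linarith)
    (fun t ht => hδ2 (by rw [Real.dist_eq, sub_zero, abs_lt]; exact ht))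
    (k₀ := 0) (by simp) hy
  have hzero := form_zero_of_double m hX y (fun k => (G (((k : ℝ) + 1 : ℝ) : ℂ)).re) ?_ ?_ h0 h1
  · rw [hzero] at hpos
    exact lt_irrefl _ hpos
  · rw [hGval _ (by positivity), hNdef]
    ring
  · intro k hk
    obtain ⟨h2, _⟩ := hFpos ((k : ℝ) + 1) (by positivity)
    rw [hGval _ (by positivity)]
    have h3 := hrec k hk
    have e1 : (((k : ℝ) + 1 : ℝ) : ℂ) = (k : ℂ) + 1 := by push_cast; ring
    rw [e1] at h2 ⊢
    have h4 : (0 : ℝ) < (k : ℝ) + 3 / 2 := by positivity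
    have e2 : ((k : ℝ) + 1 + 1 / 2) ^ (1 - θ) * (F ((k : ℂ) + 1)).re ^ θ =
        (k + 3 / 2) * ((F ((k : ℂ) + 1)).re / (k + 3 / 2)) ^ θ := by
      have e3 : (k : ℝ) + 1 + 1 / 2 = k + 3 / 2 := by ring
      rw [e3, Real.div_rpow h2.le h4.le, Real.rpow_sub h4, Real.rpow_one]
      ring
    rw [e2, hNdef]
    linear_combination ((k : ℝ) + 3 / 2) * h3

end Pool.Agent.PC
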