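import Mathlib
import Pool.Agent.PC.Energy

open Complex Filter Topology Finset Polynomial

namespace Pool.Agent.PC

open Pool.Agent.H62LR

/-- The positive real condition, finite form (`N = m + 1`). -/
structure PR (m : ℕ) (F : ℂ → ℂ) : Prop where
  cont : ContinuousOn F Rhp
  diff : DifferentiableOn ℂ F rhp
  ne : ∀ z ∈ Rhp, F z ≠ 0
  bdd : ∃ C : ℝ, ∀ z ∈ Rhp, ‖F z‖ ≤ C
  real : ∀ x : ℝ, 0 ≤ x → (F x).im = 0
  axis : ∀ t : ℝ, 0 ≤ (F (t * I)).re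
  axisN : ∀ t : ℝ, 0 ≤ (((m : ℂ) + 1 - t * I) * F (t * I)).re

/-- no double zeros -/
theorem PR.no_double {m : ℕ} {F : ℂ → ℂ} (hF : PR m F) {r : ℕ → ℝ} (hr : ∀ k ≤ m, 0 < r k)
    (hrec : ∀ k < m, r (k + 1) * ((k : ℝ) + 3 / 2) = (F ((k : ℂ) + 1)).re * r k)
    {θ : ℝ} (hθ0 : 0 ≤ θ) (hθ1 : θ ≤ 1) {x : ℝ} (hx : x < 0)
    (h0 : ∑ k ∈ range (m + 1), ((m.choose k : ℝ) * (((k + 1).factorial : ℝ)⁻¹ * r k ^ θ)) * x ^ k = 0)
    (h1 : ∑ k ∈ range (m + 1), (k : ℝ) *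
      (((m.choose k : ℝ) * (((k + 1).factorial : ℝ)⁻¹ * r k ^ θ)) * x ^ k) = 0) : False := by
  obtain ⟨C, hC⟩ := hF.bdd
  refine no_double_F hθ0 hθ1 hF.cont hF.diff hF.ne hC hF.real hF.axis hF.axisN (X := -x)
    (by linarith) (y := fun k => ((m.choose k : ℝ) * (((k + 1).factorial : ℝ)⁻¹ * r k ^ θ)) * x ^ k)
    ?_ ?_ h0 h1
  · have := Real.rpow_pos_of_pos (hr 0 (Nat.zero_le _)) θ
    simp
    exact this.ne'
  · intro k hk
    have hrk := hr k hk.le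
    have hrk1 := hr (k + 1) hk
    have h4 : (0 : ℝ) < (k : ℝ) + 3 / 2 := by positivity
    have e1 : (F ((k : ℂ) + 1)).re / ((k : ℝ) + 3 / 2) = r (k + 1) / r k := by
      have := hrec k hk
      field_simp
      linarith
    have e2 : (r (k + 1) / r k) ^ θ * r k ^ θ = r (k + 1) ^ θ := by
      rw [← Real.mul_rpow (by positivity) hrk.le, div_mul_cancel₀ _ hrk.ne']
    have e3 : (m.choose (k + 1) : ℝ) * ((k : ℝ) + 1) = (m.choose k : ℝ) * ((m : ℝ) - k) := by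
      have h2 := Nat.choose_succ_right_eq m k
      have h3 : ((m - k : ℕ) : ℝ) = (m : ℝ) - k := by
        rw [Nat.cast_sub hk.le]
      rw [← h3]
      exact_mod_cast h2
    have e4 : ((k : ℝ) + 2) * ((k + 1 + 1).factorial : ℝ)⁻¹ = ((k + 1).factorial : ℝ)⁻¹ := by
      rw [Nat.factorial_succ (k + 1)]
      push_cast
      have : ((k + 1).factorial : ℝ) ≠ 0 := by positivity
      have h5 : ((k : ℝ) + 1 + 1) ≠ 0 := by positivity
      field_simp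
      ring
    rw [e1, pow_succ]
    calc ((k : ℝ) + 1) * (k + 2) * ((m.choose (k + 1) : ℝ) *
          (((k + 1 + 1).factorial : ℝ)⁻¹ * r (k + 1) ^ θ) * (x ^ k * x)) =
        ((m.choose (k + 1) : ℝ) * ((k : ℝ) + 1)) * (((k : ℝ) + 2) * ((k + 1 + 1).factorial : ℝ)⁻¹) *
          r (k + 1) ^ θ * (x ^ k * x) := by ring
      _ = _ := by rw [e3, e4, ← e2]; ring

/-- **Finite energy lemma.** Under the positive real condition the sequence
`r_k^θ / (k+1)!` is a multiplier sequence (degree `m`) for all `θ ∈ [0,1]`. -/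
theorem PR.ms {m : ℕ} {F : ℂ → ℂ} (hF : PR m F) {r : ℕ → ℝ} (hr : ∀ k ≤ m, 0 < r k)
    (hrec : ∀ k < m, r (k + 1) * ((k : ℝ) + 3 / 2) = (F ((k : ℂ) + 1)).re * r k) :
    ∀ θ ∈ Set.Icc (0 : ℝ) 1, MS m (fun k => ((k + 1).factorial : ℝ)⁻¹ * r k ^ θ) := by
  refine homotopy (n := m) (c := 0) (d := 1) (fun θ k => (m.choose k : ℝ) *
    (((k + 1).factorial : ℝ)⁻¹ * r k ^ θ)) ?_ ?_ ?_ ?_
  · intro k hk
    have := (hr k hk).ne'
    apply Continuous.continuousOn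
    fun_prop (disch := exact this)
  · intro θ _ k hk
    have := Real.rpow_pos_of_pos (hr k hk) θ
    have h2 := choose_pos' hk
    positivity
  · have h1 := ms_gamma m (α := 1) (s := 1) zero_le_one le_rfl
    refine PF.congr h1 (fun k _ => ?_)
    beta_reduce
    have e1 : (k : ℝ) + 1 + 1 = ((k + 1 : ℕ) : ℝ) + 1 := by push_cast; ring
    rw [e1, Real.Gamma_nat_eq_factorial, Real.rpow_neg_one, Real.rpow_zero, mul_one]
  · intro θ hθ x hx h0 h1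
    exact hF.no_double hr hrec hθ.1 hθ.2 hx h0 h1

/-! ### Polynomials -/

/-- `F(z) = (z + 1/2) Q(z + e) / ((z + e) Q(z + e - 1))` -/
noncomputable def FQ (e : ℕ) (Q : ℝ[X]) (z : ℂ) : ℂ :=
  (z + 1 / 2) * aeval (z + e) Q / ((z + e) * aeval (z + e - 1) Q)

lemma bdd_shift (Q : ℝ[X]) {c : ℝ} (hQ : ∀ z : ℂ, c ≤ z.re → aeval z Q ≠ 0) :
    ∃ K : ℝ, 0 ≤ K ∧ ∀ z : ℂ, c ≤ z.re → ‖aeval (z + 1) Q‖ ≤ K * ‖aeval z Q‖ := by
  set P : ℂ[X] := Q.map (algebraMap ℝ ℂ) with hP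
  have hev : ∀ z : ℂ, aeval z Q = P.leadingCoeff * (P.roots.map (fun a => z - a)).prod := by
    intro z
    rw [← eval_map_algebraMap, ← hP]
    exact (IsAlgClosed.splits P).eval_eq_prod_roots z
  have hroot : ∀ a ∈ P.roots, a.re < c := by
    intro a ha
    by_contra h
    push Not at h
    apply hQ a h
    have := (Polynomial.mem_roots'.1 ha).2
    rw [← eval_map_algebraMap, ← hP]
    exact this
  have key : ∀ S : Multiset ℂ, (∀ a ∈ S, a.re < c) → ∃ K : ℝ, 0 ≤ K ∧ ∀ z : ℂ, c ≤ z.re →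
      ‖(S.map (fun a => z + 1 - a)).prod‖ ≤ K * ‖(S.map (fun a => z - a)).prod‖ := by
    intro S
    induction S using Multiset.induction_on with
    | empty => intro _; exact ⟨1, zero_le_one, fun z _ => by simp⟩
    | cons a S ih =>
      intro h
      obtain ⟨K, hK0, hK⟩ := ih (fun b hb => h b (Multiset.mem_cons_of_mem hb))
      have ha := h a (Multiset.mem_cons_self a S)
      refine ⟨(1 + 1 / (c - a.re)) * K, ?_, fun z hz => ?_⟩
      · have : 0 < c - a.re := by linarith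
        positivity
      · rw [Multiset.map_cons, Multiset.map_cons, Multiset.prod_cons, Multiset.prod_cons, norm_mul,
          norm_mul]
        have hd : 0 < c - a.re := by linarith
        have h1 : c - a.re ≤ ‖z - a‖ := by
          have := Complex.re_le_norm (z - a)
          simp only [Complex.sub_re] at this
          linarith
        have h2 : ‖z + 1 - a‖ ≤ (1 + 1 / (c - a.re)) * ‖z - a‖ := by
          have e1 : z + 1 - a = (z - a) + 1 := by ring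
          rw [e1]
          calc ‖(z - a) + 1‖ ≤ ‖z - a‖ + ‖(1 : ℂ)‖ := norm_add_le _ _
            _ ≤ ‖z - a‖ + 1 / (c - a.re) * ‖z - a‖ := by
              rw [norm_one]
              gcongr
              rw [div_mul_eq_mul_div, one_mul, le_div_iff₀ hd, one_mul]
              exact h1
            _ = _ := by ring
        calc ‖z + 1 - a‖ * ‖(S.map (fun a => z + 1 - a)).prod‖ ≤
            ((1 + 1 / (c - a.re)) * ‖z - a‖) * (K * ‖(S.map (fun a => z - a)).prod‖) :=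
              mul_le_mul h2 (hK z hz) (norm_nonneg _) (by positivity)
          _ = _ := by ring
  obtain ⟨K, hK0, hK⟩ := key P.roots hroot
  refine ⟨K, hK0, fun z hz => ?_⟩
  rw [hev, hev, norm_mul, norm_mul]
  calc ‖P.leadingCoeff‖ * ‖(P.roots.map (fun a => z + 1 - a)).prod‖ ≤
      ‖P.leadingCoeff‖ * (K * ‖(P.roots.map (fun a => z - a)).prod‖) :=
        mul_le_mul_of_nonneg_left (hK z hz) (norm_nonneg _)
    _ = _ := by ring

theorem PR.of_poly {e m : ℕ} (he : 1 ≤ e) {Q : ℝ[X]}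
    (hQ : ∀ z : ℂ, (e : ℝ) - 1 ≤ z.re → aeval z Q ≠ 0)
    (hax : ∀ t : ℝ, 0 ≤ (FQ e Q (t * I)).re)
    (haxN : ∀ t : ℝ, 0 ≤ (((m : ℂ) + 1 - t * I) * FQ e Q (t * I)).re) : PR m (FQ e Q) := by
  have he' : (1 : ℝ) ≤ e := by exact_mod_cast he
  have h1 : ∀ z ∈ Rhp, z + (e : ℂ) ≠ 0 := by
    intro z hz h
    have h2 := congrArg Complex.re h
    have hz' : 0 ≤ z.re := hz
    simp at h2
    linarith
  have h2 : ∀ z ∈ Rhp, aeval (z + e - 1) Q ≠ 0 := by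
    intro z hz
    apply hQ
    have hz' : 0 ≤ z.re := hz
    simp
    linarith
  have h3 : ∀ z ∈ Rhp, aeval (z + (e : ℂ)) Q ≠ 0 := by
    intro z hz
    apply hQ
    have hz' : 0 ≤ z.re := hz
    simp
    linarith
  have hden : ∀ z ∈ Rhp, (z + (e : ℂ)) * aeval (z + e - 1) Q ≠ 0 :=
    fun z hz => mul_ne_zero (h1 z hz) (h2 z hz)
  have hpc : ∀ c : ℂ, Differentiable ℂ (fun z : ℂ => aeval (z + c) Q) := by
    intro c
    have : (fun z : ℂ => aeval (z + c) Q) = fun z : ℂ => ((Q.map (algebraMap ℝ ℂ)).eval (z + c)) := by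
      ext z
      rw [eval_map_algebraMap]
    rw [this]
    have h5 : Differentiable ℂ (fun w : ℂ => (Q.map (algebraMap ℝ ℂ)).eval w) :=
      Polynomial.differentiable _
    have h6 : Differentiable ℂ (fun z : ℂ => z + c) := by fun_prop
    exact h5.comp h6
  have hpc1 : Differentiable ℂ (fun z : ℂ => aeval (z + e - 1) Q) := by
    have : (fun z : ℂ => aeval (z + e - 1) Q) = fun z : ℂ => aeval (z + (e - 1 : ℂ)) Q := by
      ext z
      rw [add_sub_assoc]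
    rw [this]
    exact hpc _
  have hnum : Differentiable ℂ (fun z : ℂ => (z + 1 / 2) * aeval (z + (e : ℂ)) Q) :=
    (by fun_prop : Differentiable ℂ (fun z : ℂ => z + 1 / 2)).mul (hpc _)
  have hdenD : Differentiable ℂ (fun z : ℂ => (z + (e : ℂ)) * aeval (z + e - 1) Q) :=
    (by fun_prop : Differentiable ℂ (fun z : ℂ => z + (e : ℂ))).mul hpc1
  obtain ⟨K, hK0, hK⟩ := bdd_shift Q hQ
  refine ⟨?_, ?_, ?_, ⟨K, ?_⟩, ?_, hax, haxN⟩
  · exact hnum.continuous.continuousOn.div hdenD.continuous.continuousOn hden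
  · exact hnum.differentiableOn.div hdenD.differentiableOn (fun z hz => hden z (rhp_subset hz))
  · intro z hz
    refine div_ne_zero (mul_ne_zero ?_ (h3 z hz)) (hden z hz)
    intro h
    have h4 := congrArg Complex.re h
    have hz' : 0 ≤ z.re := hz
    simp at h4
    linarith
  · intro z hz
    have hz' : 0 ≤ z.re := hz
    unfold FQ
    rw [norm_div, norm_mul, norm_mul, div_le_iff₀ (by
      have a1 := norm_pos_iff.2 (h1 z hz)
      have a2 := norm_pos_iff.2 (h2 z hz)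
      positivity)]
    have a3 : ‖z + 1 / 2‖ ≤ ‖z + (e : ℂ)‖ := by
      rw [← sq_le_sq₀ (norm_nonneg _) (norm_nonneg _), ← Complex.normSq_eq_norm_sq,
        ← Complex.normSq_eq_norm_sq, Complex.normSq_apply, Complex.normSq_apply]
      simp
      nlinarith
    have a4 : ‖aeval (z + (e : ℂ)) Q‖ ≤ K * ‖aeval (z + e - 1) Q‖ := by
      have := hK (z + e - 1) (by simp; linarith)
      rwa [sub_add_cancel] at this
    calc ‖z + 1 / 2‖ * ‖aeval (z + (e : ℂ)) Q‖ ≤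
        ‖z + (e : ℂ)‖ * (K * ‖aeval (z + e - 1) Q‖) :=
          mul_le_mul a3 a4 (norm_nonneg _) (norm_nonneg _)
      _ = _ := by ring
  · intro x hx
    unfold FQ
    have b1 : ∀ c : ℝ, aeval ((x : ℂ) + c) Q = ((Q.eval (x + c) : ℝ) : ℂ) := by
      intro c
      rw [← Complex.ofReal_add, ← Complex.coe_algebraMap, Polynomial.aeval_algebraMap_apply]
      simp
    have b2 := b1 e
    have b3 := b1 (e - 1)
    rw [Complex.ofReal_natCast] at b2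
    have b4 : (x : ℂ) + ((e - 1 : ℝ) : ℂ) = x + e - 1 := by push_cast; ring
    rw [b4] at b3
    rw [b2, b3]
    have b5 : ((x : ℂ) + 1 / 2) * ((Q.eval (x + e) : ℝ) : ℂ) /
        (((x : ℂ) + e) * ((Q.eval (x + (e - 1)) : ℝ) : ℂ)) =
        (((x + 1 / 2) * Q.eval (x + e) / ((x + e) * Q.eval (x + (e - 1))) : ℝ) : ℂ) := by
      push_cast
      ring
    rw [b5, Complex.ofReal_im]

lemma FQ_real {e : ℕ} {Q : ℝ[X]} (k : ℕ) :
    (FQ e Q ((k : ℂ) + 1)).re = ((k : ℝ) + 3 / 2) * Q.eval ((e : ℝ) + (k + 1 : ℕ)) /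
      (((e + k + 1 : ℕ) : ℝ) * Q.eval ((e : ℝ) + k)) := by
  unfold FQ
  have b1 : ∀ c : ℝ, aeval (c : ℂ) Q = ((Q.eval c : ℝ) : ℂ) := by
    intro c
    rw [← Complex.coe_algebraMap, Polynomial.aeval_algebraMap_apply]
    simp
  have e1 : (k : ℂ) + 1 + e = (((e : ℝ) + (k + 1 : ℕ) : ℝ) : ℂ) := by push_cast; ring
  have e2 : (k : ℂ) + 1 + e - 1 = (((e : ℝ) + k : ℝ) : ℂ) := by push_cast; ring
  rw [e2, e1, b1, b1]
  have e3 : ((k : ℂ) + 1 + 1 / 2) * ((Q.eval ((e : ℝ) + (k + 1 : ℕ)) : ℝ) : ℂ) /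
      ((((e : ℝ) + (k + 1 : ℕ) : ℝ) : ℂ) * ((Q.eval ((e : ℝ) + k) : ℝ) : ℂ)) =
      ((((k : ℝ) + 3 / 2) * Q.eval ((e : ℝ) + (k + 1 : ℕ)) /
      (((e + k + 1 : ℕ) : ℝ) * Q.eval ((e : ℝ) + k)) : ℝ) : ℂ) := by
    push_cast
    ring
  rw [e3, Complex.ofReal_re]

/-- `r_k = Q(e+k)/(e+k)!` -/
noncomputable def rQ (e : ℕ) (Q : ℝ[X]) (k : ℕ) : ℝ := Q.eval ((e : ℝ) + k) / ((e + k).factorial : ℝ)

lemma eval_pos_of_no_root {e : ℕ} {Q : ℝ[X]} (hQ : ∀ z : ℂ, (e : ℝ) - 1 ≤ z.re → aeval z Q ≠ 0)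
    (hpos : 0 < Q.eval (e : ℝ)) {x : ℝ} (hx : (e : ℝ) - 1 ≤ x) : 0 < Q.eval x := by
  have hne : ∀ x : ℝ, (e : ℝ) - 1 ≤ x → Q.eval x ≠ 0 := by
    intro x hx h
    apply hQ (x : ℂ) (by simpa using hx)
    rw [← Complex.coe_algebraMap, Polynomial.aeval_algebraMap_apply]
    simp [h]
  by_contra hcon
  push Not at hcon
  have hcont : ContinuousOn (fun x => Q.eval x) (Set.Ici ((e : ℝ) - 1)) := Q.continuous.continuousOn
  have h1 : (0 : ℝ) ∈ (fun x => Q.eval x) '' Set.Ici ((e : ℝ) - 1) := by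
    have hpre : IsPreconnected (Set.Ici ((e : ℝ) - 1)) := (convex_Ici _).isPreconnected
    have h2 := hpre.intermediate_value (a := x) (b := (e : ℝ)) hx
      (by simp) hcont
    exact h2 ⟨hcon, hpos.le⟩
  obtain ⟨w, hw, hw0⟩ := h1
  exact hne w hw hw0

lemma rQ_pos {e : ℕ} {Q : ℝ[X]} (hQ : ∀ z : ℂ, (e : ℝ) - 1 ≤ z.re → aeval z Q ≠ 0)
    (hpos : 0 < Q.eval (e : ℝ)) (k : ℕ) : 0 < rQ e Q k := by
  unfold rQ
  have := eval_pos_of_no_root hQ hpos (x := (e : ℝ) + k) (by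
    have : (0 : ℝ) ≤ k := Nat.cast_nonneg _
    linarith)
  positivity

lemma rQ_rec {e : ℕ} {Q : ℝ[X]} (hQ : ∀ z : ℂ, (e : ℝ) - 1 ≤ z.re → aeval z Q ≠ 0)
    (hpos : 0 < Q.eval (e : ℝ)) (k : ℕ) :
    rQ e Q (k + 1) * ((k : ℝ) + 3 / 2) = (FQ e Q ((k : ℂ) + 1)).re * rQ e Q k := by
  have h1 := eval_pos_of_no_root hQ hpos (x := (e : ℝ) + k) (by
    have : (0 : ℝ) ≤ k := Nat.cast_nonneg _
    linarith)
  rw [FQ_real]
  unfold rQ
  have e1 : (e + (k + 1)).factorial = (e + k + 1) * (e + k).factorial := by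
    rw [← add_assoc, Nat.factorial_succ]
  have e2 : ((e : ℝ) + ((k + 1 : ℕ) : ℝ)) = (e : ℝ) + (k + 1 : ℕ) := rfl
  rw [e1]
  push_cast
  have h2 : (0 : ℝ) < ((e + k).factorial : ℝ) := by positivity
  have h3 : (0 : ℝ) < (e : ℝ) + k + 1 := by positivity
  field_simp

/-- **Finite energy lemma, polynomial form**: multiplier sequence. -/
theorem ms_poly {e m : ℕ} (he : 1 ≤ e) {Q : ℝ[X]}
    (hQ : ∀ z : ℂ, (e : ℝ) - 1 ≤ z.re → aeval z Q ≠ 0) (hpos : 0 < Q.eval (e : ℝ))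
    (hax : ∀ t : ℝ, 0 ≤ (FQ e Q (t * I)).re)
    (haxN : ∀ t : ℝ, 0 ≤ (((m : ℂ) + 1 - t * I) * FQ e Q (t * I)).re) :
    ∀ θ ∈ Set.Icc (0 : ℝ) 1, MS m (fun k => ((k + 1).factorial : ℝ)⁻¹ *
      (Q.eval ((e : ℝ) + k) / ((e + k).factorial : ℝ)) ^ θ) :=
  (PR.of_poly he hQ hax haxN).ms (r := rQ e Q) (fun k _ => rQ_pos hQ hpos k)
    (fun k _ => rQ_rec hQ hpos k)

/-- no double zeros, polynomial form -/
theorem no_double_poly {e m : ℕ} (he : 1 ≤ e) {Q : ℝ[X]}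
    (hQ : ∀ z : ℂ, (e : ℝ) - 1 ≤ z.re → aeval z Q ≠ 0) (hpos : 0 < Q.eval (e : ℝ))
    (hax : ∀ t : ℝ, 0 ≤ (FQ e Q (t * I)).re)
    (haxN : ∀ t : ℝ, 0 ≤ (((m : ℂ) + 1 - t * I) * FQ e Q (t * I)).re)
    {θ : ℝ} (hθ0 : 0 ≤ θ) (hθ1 : θ ≤ 1) {x : ℝ} (hx : x < 0)
    (h0 : ∑ k ∈ range (m + 1), ((m.choose k : ℝ) * (((k + 1).factorial : ℝ)⁻¹ *
      (Q.eval ((e : ℝ) + k) / ((e + k).factorial : ℝ)) ^ θ)) * x ^ k = 0)
    (h1 : ∑ k ∈ range (m + 1), (k : ℝ) * (((m.choose k : ℝ) * (((k + 1).factorial : ℝ)⁻¹ *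
      (Q.eval ((e : ℝ) + k) / ((e + k).factorial : ℝ)) ^ θ)) * x ^ k) = 0) : False :=
  (PR.of_poly he hQ hax haxN).no_double (r := rQ e Q) (fun k _ => rQ_pos hQ hpos k)
    (fun k _ => rQ_rec hQ hpos k) hθ0 hθ1 hx h0 h1

end Pool.Agent.PC
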