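import Mathlib
import Pool.Agent.PC.Mult

open Finset Polynomial Filter Topology

namespace Pool.Agent.PC

open Pool.Agent.H62LR

/-- no double zero on the negative axis -/
def Simple (n : ℕ) (a : ℕ → ℝ) : Prop :=
  ∀ x : ℝ, x < 0 → ∑ k ∈ range (n + 1), a k * x ^ k = 0 →
    ∑ k ∈ range (n + 1), (k : ℝ) * (a k * x ^ k) = 0 → False

lemma Simple.congr {n : ℕ} {a b : ℕ → ℝ} (ha : Simple n a) (h : ∀ k ≤ n, a k = b k) :
    Simple n b := by
  intro x hx h0 h1
  refine ha x hx ?_ ?_
  · rw [← h0]
    refine Finset.sum_congr rfl (fun k hk => ?_)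
    rw [h k (by simpa [Nat.lt_succ_iff] using hk)]
  · rw [← h1]
    refine Finset.sum_congr rfl (fun k hk => ?_)
    rw [h k (by simpa [Nat.lt_succ_iff] using hk)]

lemma sum_deriv (n : ℕ) (a : ℕ → ℝ) (x : ℝ) :
    ∑ k ∈ range (n + 1), (k : ℝ) * (a k * x ^ k) = x * (derivative (poly n a)).eval x := by
  unfold poly
  rw [derivative_sum, eval_finsetSum, Finset.mul_sum]
  refine Finset.sum_congr rfl (fun k _ => ?_)
  rw [derivative_monomial, eval_monomial]
  rcases Nat.eq_zero_or_pos k with h | h
  · subst h; simp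
  · obtain ⟨j, rfl⟩ := Nat.exists_eq_succ_of_ne_zero h.ne'
    rw [Nat.succ_sub_one, pow_succ]
    ring

/-- `PF` with simple zeros is an open condition along lines. -/
lemma pf_open {n : ℕ} {a : ℕ → ℝ} (hPF : PF n a) (hs : Simple n a) (d : ℕ → ℝ) :
    ∀ᶠ s in 𝓝 (0 : ℝ), PF n (fun k => a k + s * d k) := by
  set p : ℝ[X] := poly n a with hp
  have hdeg : p.natDegree = n := natDegree_poly (hPF.1 n le_rfl).ne'
  have hp0 : p ≠ 0 := by
    intro h
    have := congrArg (fun q => q.coeff 0) h
    simp only [hp, coeff_poly, if_pos (Nat.zero_le n), coeff_zero] at this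
    have h2 := hPF.1 0 (Nat.zero_le _)
    linarith
  have hcoef : ∀ k, 0 ≤ p.coeff k := by
    intro k
    rw [hp, coeff_poly]
    split_ifs with h
    · exact (hPF.1 k h).le
    · exact le_rfl
  have hneg : ∀ x, p.eval x = 0 → x < 0 := by
    intro x hx
    rcases lt_trichotomy x 0 with h | h | h
    · exact h
    · exfalso
      rw [h, ← coeff_zero_eq_eval_zero, hp, coeff_poly, if_pos (Nat.zero_le _)] at hx
      exact (hPF.1 0 (Nat.zero_le _)).ne' hx
    · exact absurd hx (Pool.Agent.H49.PowerForm.eval_pos hp0 hcoef h).ne'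
  have hder : ∀ x, p.eval x = 0 → p.derivative.eval x ≠ 0 := by
    intro x hx h1
    refine hs x (hneg x hx) ?_ ?_
    · rw [← eval_poly]; exact hx
    · rw [sum_deriv, ← hp, h1, mul_zero]
  have hsp := Pool.Agent.H49.RR.RealRooted.splits hPF.realRooted
  have hnodup : p.roots.Nodup := by
    rw [Multiset.nodup_iff_count_le_one]
    intro x
    rw [count_roots]
    by_contra hc
    push Not at hc
    have h1 := (one_lt_rootMultiplicity_iff_isRoot hp0).1 hc
    exact hder x h1.1 h1.2
  set R : Finset ℝ := p.roots.toFinset with hR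
  have hRcard : R.card = n := by
    rw [hR, Multiset.toFinset_card_of_nodup hnodup, ← hsp.natDegree_eq_card_roots, ← hp, hdeg]
  have hRroot : ∀ x ∈ R, p.eval x = 0 := by
    intro x hx
    rw [hR, Multiset.mem_toFinset, mem_roots hp0] at hx
    exact hx
  -- a common radius
  have hgap : ∀ᶠ δ in 𝓝[>] (0 : ℝ), ∀ x ∈ R, ∀ y ∈ R, x ≠ y → 2 * δ < |x - y| := by
    rw [eventually_all_finset]
    intro x _
    rw [eventually_all_finset]
    intro y _
    by_cases hxy : x = y
    · exact Eventually.of_forall (fun δ h => absurd hxy h)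
    · have h1 : 0 < |x - y| := abs_pos.2 (sub_ne_zero.2 hxy)
      have h2 : ∀ᶠ δ in 𝓝 (0 : ℝ), δ < |x - y| / 2 := eventually_lt_nhds (by positivity)
      filter_upwards [nhdsWithin_le_nhds h2] with δ hδ _
      linarith
  have hsign : ∀ᶠ δ in 𝓝[>] (0 : ℝ), ∀ x ∈ R, p.eval (x - δ) * p.eval (x + δ) < 0 := by
    rw [eventually_all_finset]
    intro x hx
    exact sign_change (hRroot x hx) (hder x (hRroot x hx))
  obtain ⟨δ, hδ1, hδ2, hδ0⟩ := (hgap.and (hsign.and self_mem_nhdsWithin)).exists
  have hδ0 : (0 : ℝ) < δ := hδ0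
  -- persistence of the sign changes
  have hevc : ∀ x : ℝ, ContinuousAt (fun s : ℝ => (poly n (fun k => a k + s * d k)).eval x) 0 := by
    intro x
    simp_rw [eval_poly]
    apply Continuous.continuousAt
    fun_prop
  have he0 : poly n (fun k => a k + (0 : ℝ) * d k) = p := by
    rw [hp]
    congr 1
    ext k
    ring
  have hpers : ∀ᶠ s in 𝓝 (0 : ℝ), ∀ x ∈ R,
      (poly n (fun k => a k + s * d k)).eval (x - δ) *
        (poly n (fun k => a k + s * d k)).eval (x + δ) < 0 := by
    rw [eventually_all_finset]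
    intro x hx
    have h1 := (hevc (x - δ)).mul (hevc (x + δ))
    refine h1.eventually (eventually_lt_nhds ?_)
    simp only [Pi.mul_apply]
    rw [he0]
    exact hδ2 x hx
  have hpos : ∀ᶠ s in 𝓝 (0 : ℝ), ∀ k ∈ range (n + 1), 0 < a k + s * d k := by
    rw [eventually_all_finset]
    intro k hk
    have h1 : ContinuousAt (fun s : ℝ => a k + s * d k) 0 := by fun_prop
    refine h1.eventually (eventually_gt_nhds ?_)
    simp only [zero_mul, add_zero]
    exact hPF.1 k (by simpa [Nat.lt_succ_iff] using hk)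
  filter_upwards [hpers, hpos] with s hsgn hps
  have hps' : ∀ k ≤ n, 0 < a k + s * d k := fun k hk => hps k (by simpa [Nat.lt_succ_iff] using hk)
  -- roots for `s`
  have hroot : ∀ x ∈ R, ∃ y, |y - x| < δ ∧ (poly n (fun k => a k + s * d k)).eval y = 0 := by
    intro x hx
    have h1 := hsgn x hx
    set q := poly n (fun k => a k + s * d k) with hq
    have hc : ContinuousOn (fun y => q.eval y) (Set.Icc (x - δ) (x + δ)) :=
      q.continuous.continuousOn
    have hab : x - δ ≤ x + δ := by linarith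
    rcases mul_neg_iff.1 h1 with ⟨h2, h3⟩ | ⟨h2, h3⟩
    · obtain ⟨y, hy, hy0⟩ := intermediate_value_Icc' hab hc ⟨h3.le, h2.le⟩
      refine ⟨y, ?_, hy0⟩
      have hy1 : y ≠ x - δ := by
        rintro rfl
        exact absurd hy0 h2.ne'
      have hy2 : y ≠ x + δ := by
        rintro rfl
        exact absurd hy0 h3.ne
      rw [abs_lt]
      constructor
      · have := lt_of_le_of_ne hy.1 (Ne.symm hy1)
        linarith
      · have := lt_of_le_of_ne hy.2 hy2
        linarith
    · obtain ⟨y, hy, hy0⟩ := intermediate_value_Icc hab hc ⟨h2.le, h3.le⟩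
      refine ⟨y, ?_, hy0⟩
      have hy1 : y ≠ x - δ := by
        rintro rfl
        exact absurd hy0 h2.ne
      have hy2 : y ≠ x + δ := by
        rintro rfl
        exact absurd hy0 h3.ne'
      rw [abs_lt]
      constructor
      · have := lt_of_le_of_ne hy.1 (Ne.symm hy1)
        linarith
      · have := lt_of_le_of_ne hy.2 hy2
        linarith
  choose! r hr1 hr2 using hroot
  have hinj : Set.InjOn r (R : Set ℝ) := by
    intro x hx y hy hxy
    by_contra hne
    have h1 := hδ1 x hx y hy hne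
    have h2 := hr1 x hx
    have h3 := hr1 y hy
    rw [← hxy] at h3
    have h4 : |x - y| ≤ |r x - x| + |r x - y| := by
      have : x - y = -(r x - x) + (r x - y) := by ring
      rw [this]
      refine (abs_add_le _ _).trans ?_
      rw [abs_neg]
    linarith
  refine pf_of_roots hps' (R.image r) ?_ ?_
  · rw [Finset.card_image_of_injOn hinj, hRcard]
  · intro y hy
    obtain ⟨x, hx, rfl⟩ := Finset.mem_image.1 hy
    exact hr2 x hx

lemma MS.comp_pf {n : ℕ} {A B : ℕ → ℝ} (hA : MS n A) (hB : MS n B) :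
    PF n (fun k => (n.choose k : ℝ) * (A k * B k)) := hA.mul hB

/-- **Strict composition.** If the Jensen polynomial of `A` has simple zeros then so has that of
`A B`, for every multiplier sequence `B`. -/
theorem simple_comp {n : ℕ} {A B : ℕ → ℝ} (hA : MS n A)
    (hs : Simple n (fun k => (n.choose k : ℝ) * A k)) (hB : MS n B) :
    Simple n (fun k => (n.choose k : ℝ) * (A k * B k)) := by
  intro x hx h0 h1
  set g : ℕ → ℝ := fun k => (n.choose k : ℝ) * (A k * B k) with hg
  have hgPF : PF n g := hA.mul hB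
  set p : ℝ[X] := poly n g with hp
  have hp0 : p ≠ 0 := by
    intro h
    have := congrArg (fun q => q.coeff 0) h
    simp only [hp, coeff_poly, if_pos (Nat.zero_le n), coeff_zero] at this
    have h2 := hgPF.1 0 (Nat.zero_le _)
    linarith
  have hr0 : p.IsRoot x := by
    rw [IsRoot.def, hp, eval_poly]; exact h0
  have hr1 : (derivative p).IsRoot x := by
    rw [IsRoot.def]
    rw [sum_deriv, ← hp] at h1
    exact (mul_eq_zero.1 h1).resolve_left hx.ne
  have hmult : 1 < p.rootMultiplicity x := (one_lt_rootMultiplicity_iff_isRoot hp0).2 ⟨hr0, hr1⟩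
  have hdvd : (X - C x) ^ 2 ∣ p := (le_rootMultiplicity_iff hp0).1 hmult
  obtain ⟨K, hK⟩ := hdvd
  have hKdeg : K.natDegree ≤ n := by
    have hK0 : K ≠ 0 := by
      rintro rfl
      rw [mul_zero] at hK
      exact hp0 hK
    have h2 : p.natDegree = ((X - C x) ^ 2).natDegree + K.natDegree := by
      rw [hK, natDegree_mul (pow_ne_zero _ (X_sub_C_ne_zero x)) hK0]
    have h3 : p.natDegree ≤ n := by
      rw [hp, natDegree_le_iff_coeff_eq_zero]
      intro k hk
      rw [coeff_poly, if_neg (by omega)]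
    omega
  have hBpos : ∀ k ≤ n, 0 < B k := fun k hk => hB.pos hk
  have hopen := pf_open hA hs (fun k => K.coeff k / B k)
  have hopen' : ∀ᶠ s in 𝓝[>] (0 : ℝ), PF n (fun k => (n.choose k : ℝ) * A k + s * (K.coeff k / B k)) :=
    nhdsWithin_le_nhds hopen
  obtain ⟨s, hs1, hs2⟩ := (hopen'.and self_mem_nhdsWithin).exists
  have hs2 : (0 : ℝ) < s := hs2
  have hms : MS n (fun k => A k + s * (K.coeff k / B k) / (n.choose k : ℝ)) := by
    refine PF.congr hs1 (fun k hk => ?_)
    have := (choose_pos' hk).ne'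
    field_simp
  have hPF2 : PF n (fun k => g k + s * K.coeff k) := by
    refine PF.congr (hms.mul hB) (fun k hk => ?_)
    have h2 := (choose_pos' hk).ne'
    have h3 := (hBpos k hk).ne'
    simp only [hg]
    field_simp
  -- the nonreal zero
  set z : ℂ := (x : ℂ) + Real.sqrt s * Complex.I with hz
  have hzim : 0 < z.im := by
    rw [hz]
    simp
    exact hs2
  have hev : ev n (fun k => g k + s * K.coeff k) z = aeval z p + s * aeval z K := by
    rw [hp, aeval_poly]
    have h4 : aeval z K = ∑ k ∈ range (n + 1), (K.coeff k : ℂ) * z ^ k := by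
      rw [aeval_eq_sum_range' (lt_of_le_of_lt hKdeg (Nat.lt_succ_self n))]
      refine Finset.sum_congr rfl (fun k _ => ?_)
      rw [Complex.real_smul]
    rw [h4]
    unfold ev
    rw [Finset.mul_sum, ← Finset.sum_add_distrib]
    refine Finset.sum_congr rfl (fun k _ => ?_)
    push_cast
    ring
  refine hPF2.2 z hzim ?_
  rw [hev, hK]
  rw [map_mul, map_pow, map_sub, aeval_X, aeval_C, Complex.coe_algebraMap]
  have h5 : (z - (x : ℂ)) ^ 2 = -(s : ℂ) := by
    rw [hz, add_sub_cancel_left, mul_pow, Complex.I_sq, ← Complex.ofReal_pow, Real.sq_sqrt hs2.le]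
    ring
  rw [h5]
  ring

end Pool.Agent.PC
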