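import Mathlib
import Pool.Agent.PC.Simple

open Finset Polynomial Filter Topology

namespace Pool.Agent.PC

open Pool.Agent.H62LR

/-- the reduced coefficient sequence of one side: `h` roots outside the cluster on this side -/
noncomputable def sideSeq (θ : ℝ) (h : ℕ) (Q : ℝ[X]) (i : ℕ) : ℝ :=
  if h = 0 then ((i.factorial : ℝ) ^ (1 + θ))⁻¹
  else ((i + 1).factorial : ℝ)⁻¹ * (Q.eval ((h : ℝ) + i) / ((h + i).factorial : ℝ)) ^ θ

/-- the analytic condition on one side (`m + h_1 + h_2 = n`) -/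
structure SideOK (h m : ℕ) (Q : ℝ[X]) : Prop where
  zero : h = 0 → Q = 1
  nroot : 1 ≤ h → ∀ z : ℂ, (h : ℝ) - 1 ≤ z.re → aeval z Q ≠ 0
  pos : 1 ≤ h → 0 < Q.eval (h : ℝ)
  axis : 1 ≤ h → ∀ t : ℝ, 0 ≤ (FQ h Q (t * Complex.I)).re
  axisN : 1 ≤ h → ∀ t : ℝ, 0 ≤ (((m : ℂ) + 1 - t * Complex.I) * FQ h Q (t * Complex.I)).re

lemma SideOK.ms {h m : ℕ} {Q : ℝ[X]} (H : SideOK h m Q) {θ : ℝ} (h0 : 0 ≤ θ) (h1 : θ ≤ 1) :
    MS m (sideSeq θ h Q) := by
  rcases Nat.eq_zero_or_pos h with hh | hh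
  · have h2 := ms_gamma m (α := 0) (s := 1 + θ) le_rfl (by linarith)
    refine MS.congr h2 (fun k _ => ?_)
    unfold sideSeq
    rw [if_pos hh, add_zero, Real.Gamma_nat_eq_factorial, Real.rpow_neg (by positivity)]
  · refine MS.congr (ms_poly hh (H.nroot hh) (H.pos hh) (H.axis hh) (H.axisN hh) θ ⟨h0, h1⟩)
      (fun k _ => ?_)
    unfold sideSeq
    rw [if_neg (by omega)]

lemma SideOK.simple {h m : ℕ} {Q : ℝ[X]} (H : SideOK h m Q) {θ : ℝ} (h0 : 0 ≤ θ) (h1 : θ ≤ 1) :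
    Simple m (fun k => (m.choose k : ℝ) * sideSeq θ h Q k) := by
  rcases Nat.eq_zero_or_pos h with hh | hh
  · rcases Nat.eq_zero_or_pos m with hm | hm
    · subst hm
      intro x _ e0 _
      simp [sideSeq, hh] at e0
    · intro x hx e0 e1
      refine simple_gamma hm (α := 0) (s := 1 + θ) le_rfl (by linarith) (by linarith) hx ?_ ?_
      · refine Eq.trans (Finset.sum_congr rfl (fun k _ => ?_)) e0
        beta_reduce
        unfold sideSeq
        rw [if_pos hh, add_zero, Real.Gamma_nat_eq_factorial, Real.rpow_neg (by positivity)]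
      · refine Eq.trans (Finset.sum_congr rfl (fun k _ => ?_)) e1
        beta_reduce
        unfold sideSeq
        rw [if_pos hh, add_zero, Real.Gamma_nat_eq_factorial, Real.rpow_neg (by positivity)]
  · intro x hx e0 e1
    refine no_double_poly hh (H.nroot hh) (H.pos hh) (H.axis hh) (H.axisN hh) h0 h1 hx ?_ ?_
    · refine Eq.trans (Finset.sum_congr rfl (fun k _ => ?_)) e0
      beta_reduce
      unfold sideSeq
      rw [if_neg (by omega)]
    · refine Eq.trans (Finset.sum_congr rfl (fun k _ => ?_)) e1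
      beta_reduce
      unfold sideSeq
      rw [if_neg (by omega)]

/-- the two-sided sequence has simple zeros -/
lemma simple_two_sided {h₁ h₂ m : ℕ} {Q₁ Q₂ : ℝ[X]} (H₁ : SideOK h₁ m Q₁) (H₂ : SideOK h₂ m Q₂)
    {θ : ℝ} (h0 : 0 ≤ θ) (h1 : θ ≤ 1) :
    Simple m (fun k => (m.choose k : ℝ) * (sideSeq θ h₁ Q₁ k * sideSeq θ h₂ Q₂ (m - k))) :=
  simple_comp (H₁.ms h0 h1) (H₁.simple h0 h1) (B := fun k => sideSeq θ h₂ Q₂ (m - k))
    (H₂.ms h0 h1).reverse

/-- the multiplier polynomial of the left side: `k^{_h} k^{_(h-1)}` -/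
noncomputable def qL (h : ℕ) : ℝ[X] := descPochhammer ℝ h * descPochhammer ℝ (h - 1)

lemma natDegree_qL (h : ℕ) : (qL h).natDegree ≤ h + (h - 1) := by
  unfold qL
  refine natDegree_mul_le.trans ?_
  rw [descPochhammer_natDegree, descPochhammer_natDegree]

lemma eval_qL_zero {h k : ℕ} (hk : k < h) : (qL h).eval (k : ℝ) = 0 := by
  unfold qL
  rw [eval_mul, descPochhammer_eval_eq_descFactorial, Nat.descFactorial_eq_zero_iff_lt.2 hk]
  simp

/-- value of the left factor -/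
lemma left_factor {h i : ℕ} {θ : ℝ} (h0 : 0 ≤ θ) {Q : ℝ[X]} (hQ0 : h = 0 → Q = 1)
    (hQ : 1 ≤ h → 0 ≤ Q.eval ((h + i : ℕ) : ℝ)) :
    (qL h).eval ((h + i : ℕ) : ℝ) * (((h + i).factorial : ℝ) ^ (2 + θ))⁻¹ *
      (Q.eval ((h + i : ℕ) : ℝ)) ^ θ = (i.factorial : ℝ)⁻¹ * sideSeq θ h Q i := by
  have hf : (0 : ℝ) < ((h + i).factorial : ℝ) := by positivity
  have hfi : (0 : ℝ) < (i.factorial : ℝ) := by positivity
  unfold qL
  rw [eval_mul, descPochhammer_eval_eq_descFactorial, descPochhammer_eval_eq_descFactorial]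
  rcases Nat.eq_zero_or_pos h with hh | hh
  · subst hh
    rw [hQ0 rfl, sideSeq, if_pos rfl]
    simp only [Nat.zero_add, Nat.zero_sub, Nat.descFactorial_zero, Nat.cast_one, eval_one,
      Real.one_rpow, mul_one, one_mul]
    rw [← mul_inv]
    congr 1
    rw [show (2 : ℝ) + θ = 1 + (1 + θ) by ring, Real.rpow_add hfi, Real.rpow_one]
  · rw [sideSeq, if_neg (by omega)]
    have e1 : ((h + i).descFactorial h : ℝ) = ((h + i).factorial : ℝ) * (i.factorial : ℝ)⁻¹ := by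
      have h2 := Nat.factorial_mul_descFactorial (show h ≤ h + i by omega)
      have h3 : h + i - h = i := by omega
      rw [h3] at h2
      have h4 : (i.factorial : ℝ) * ((h + i).descFactorial h : ℝ) = ((h + i).factorial : ℝ) := by
        exact_mod_cast h2
      field_simp
      linarith
    have e2 : ((h + i).descFactorial (h - 1) : ℝ) =
        ((h + i).factorial : ℝ) * ((i + 1).factorial : ℝ)⁻¹ := by
      have h2 := Nat.factorial_mul_descFactorial (show h - 1 ≤ h + i by omega)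
      have h3 : h + i - (h - 1) = i + 1 := by omega
      rw [h3] at h2
      have h4 : ((i + 1).factorial : ℝ) * ((h + i).descFactorial (h - 1) : ℝ) =
          ((h + i).factorial : ℝ) := by exact_mod_cast h2
      have h5 : ((i + 1).factorial : ℝ) ≠ 0 := by positivity
      field_simp
      linarith
    rw [e1, e2]
    have e3 : (((h + i).factorial : ℝ) ^ (2 + θ))⁻¹ =
        (((h + i).factorial : ℝ))⁻¹ * (((h + i).factorial : ℝ))⁻¹ * (((h + i).factorial : ℝ) ^ θ)⁻¹ := by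
      rw [Real.rpow_add hf, Real.rpow_two]
      rw [mul_inv, pow_two, mul_inv]
    rw [e3, Real.div_rpow (by
      have := hQ hh
      push_cast at this
      exact this) hf.le]
    have e4 : ((h + i : ℕ) : ℝ) = (h : ℝ) + i := by push_cast; ring
    rw [e4]
    field_simp

/-- **Final lemma (abstract form).** The weights `w_k = c C(n,k)^{2+θ} (Q₁(k) Q₂(n-k))^θ x^k`,
`x < 0`, cannot annihilate all polynomials of degree
`≤ (h₁ + (h₁ - 1)) + (h₂ + (h₂ - 1)) + 1` (truncated subtraction). -/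
theorem final_contra {n h₁ h₂ m : ℕ} (hn : h₁ + h₂ + m = n) {Q₁ Q₂ : ℝ[X]}
    (H₁ : SideOK h₁ m Q₁) (H₂ : SideOK h₂ m Q₂) {θ : ℝ} (h0 : 0 ≤ θ) (h1 : θ ≤ 1)
    {x c : ℝ} (hx : x < 0) (hc : c ≠ 0) {w : ℕ → ℝ}
    (hw : ∀ k ≤ n, h₁ ≤ k → h₂ ≤ n - k → w k = c * (n.choose k : ℝ) ^ (2 + θ) *
      (Q₁.eval (k : ℝ)) ^ θ * (Q₂.eval ((n - k : ℕ) : ℝ)) ^ θ * x ^ k)
    (horth : ∀ p : ℝ[X], p.natDegree ≤ (h₁ + (h₁ - 1)) + (h₂ + (h₂ - 1)) + 1 →
      ∑ k ∈ range (n + 1), w k * p.eval (k : ℝ) = 0) : False := by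
  set q : ℝ[X] := qL h₁ * (qL h₂).comp (C (n : ℝ) - X) with hq
  have hqdeg : q.natDegree ≤ (h₁ + (h₁ - 1)) + (h₂ + (h₂ - 1)) := by
    rw [hq]
    refine natDegree_mul_le.trans (add_le_add (natDegree_qL h₁) ?_)
    refine natDegree_comp_le.trans ?_
    have h2 : (C (n : ℝ) - X : ℝ[X]).natDegree ≤ 1 := by
      refine (natDegree_sub_le _ _).trans ?_
      simp
    calc (qL h₂).natDegree * (C (n : ℝ) - X : ℝ[X]).natDegree ≤ (qL h₂).natDegree * 1 :=
          Nat.mul_le_mul_left _ h2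
      _ ≤ _ := by rw [mul_one]; exact natDegree_qL h₂
  have hqeval : ∀ k ≤ n, q.eval (k : ℝ) = (qL h₁).eval (k : ℝ) * (qL h₂).eval ((n - k : ℕ) : ℝ) := by
    intro k hk
    rw [hq, eval_mul, eval_comp]
    congr 2
    rw [Nat.cast_sub hk]
    simp
  have o1 := horth q (by omega)
  have o2 := horth (q * X) (by
    refine natDegree_mul_le.trans ?_
    rw [natDegree_X]
    omega)
  -- reduction to the range `h₁ ≤ k ≤ n - h₂`
  have key : ∀ g : ℕ → ℝ, ∑ k ∈ range (n + 1), w k * q.eval (k : ℝ) * g k =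
      ∑ i ∈ range (m + 1), w (h₁ + i) * q.eval ((h₁ + i : ℕ) : ℝ) * g (h₁ + i) := by
    intro g
    have hsub : (range (m + 1)).image (fun i => h₁ + i) ⊆ range (n + 1) := by
      intro k hk
      obtain ⟨i, hi, rfl⟩ := Finset.mem_image.1 hk
      rw [Finset.mem_range] at hi ⊢
      omega
    rw [← Finset.sum_subset hsub]
    · rw [Finset.sum_image (fun a _ b _ hab => by simpa using hab)]
    · intro k hk hk2
      rw [Finset.mem_range] at hk
      have hk' : k ≤ n := by omega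
      have : q.eval (k : ℝ) = 0 := by
        rw [hqeval k hk']
        by_cases hk3 : k < h₁
        · rw [eval_qL_zero hk3, zero_mul]
        · have hk4 : n - k < h₂ := by
            by_contra hcon
            apply hk2
            rw [Finset.mem_image]
            exact ⟨k - h₁, by rw [Finset.mem_range]; omega, by omega⟩
          rw [eval_qL_zero hk4, mul_zero]
      rw [this]
      ring
  have hterm : ∀ i ∈ range (m + 1), w (h₁ + i) * q.eval ((h₁ + i : ℕ) : ℝ) =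
      (c * (n.factorial : ℝ) ^ (2 + θ) * (m.factorial : ℝ)⁻¹ * x ^ h₁) *
        ((m.choose i : ℝ) * (sideSeq θ h₁ Q₁ i * sideSeq θ h₂ Q₂ (m - i)) * x ^ i) := by
    intro i hi
    have hi' : i ≤ m := by simpa [Nat.lt_succ_iff] using hi
    have hk : h₁ + i ≤ n := by omega
    have hnk : n - (h₁ + i) = h₂ + (m - i) := by omega
    rw [hw (h₁ + i) hk (by omega) (by omega), hqeval (h₁ + i) hk, hnk]
    have e1 := left_factor (h := h₁) (i := i) h0 H₁.zero (fun hh =>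
      (eval_pos_of_no_root (H₁.nroot hh) (H₁.pos hh) (by
        push_cast
        have : (0 : ℝ) ≤ i := Nat.cast_nonneg _
        linarith)).le)
    have e2 := left_factor (h := h₂) (i := m - i) h0 H₂.zero (fun hh =>
      (eval_pos_of_no_root (H₂.nroot hh) (H₂.pos hh) (by
        push_cast
        have : (0 : ℝ) ≤ ((m - i : ℕ) : ℝ) := Nat.cast_nonneg _
        linarith)).le)
    have f1 : (0 : ℝ) < ((h₁ + i).factorial : ℝ) := by positivity
    have f2 : (0 : ℝ) < ((h₂ + (m - i)).factorial : ℝ) := by positivity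
    have e3 : (n.choose (h₁ + i) : ℝ) ^ (2 + θ) = (n.factorial : ℝ) ^ (2 + θ) *
        (((h₁ + i).factorial : ℝ) ^ (2 + θ))⁻¹ * (((h₂ + (m - i)).factorial : ℝ) ^ (2 + θ))⁻¹ := by
      rw [Nat.choose_eq_factorial_div_factorial hk, Nat.cast_div
        (Nat.factorial_mul_factorial_dvd_factorial hk) (by positivity), hnk]
      push_cast
      rw [Real.div_rpow (by positivity) (by positivity), Real.mul_rpow f1.le f2.le]
      field_simp
    have e4 : (m.choose i : ℝ) = (m.factorial : ℝ) * (i.factorial : ℝ)⁻¹ *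
        ((m - i).factorial : ℝ)⁻¹ := by
      rw [Nat.choose_eq_factorial_div_factorial hi', Nat.cast_div
        (Nat.factorial_mul_factorial_dvd_factorial hi') (by positivity)]
      push_cast
      field_simp
    rw [e3, e4, pow_add]
    have hm0 : (m.factorial : ℝ) ≠ 0 := by positivity
    calc c * ((n.factorial : ℝ) ^ (2 + θ) * (((h₁ + i).factorial : ℝ) ^ (2 + θ))⁻¹ *
            (((h₂ + (m - i)).factorial : ℝ) ^ (2 + θ))⁻¹) *
          (Q₁.eval ((h₁ + i : ℕ) : ℝ)) ^ θ * (Q₂.eval ((h₂ + (m - i) : ℕ) : ℝ)) ^ θ *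
          (x ^ h₁ * x ^ i) *
          ((qL h₁).eval ((h₁ + i : ℕ) : ℝ) * (qL h₂).eval ((h₂ + (m - i) : ℕ) : ℝ)) =
        c * (n.factorial : ℝ) ^ (2 + θ) * (x ^ h₁ * x ^ i) *
          ((qL h₁).eval ((h₁ + i : ℕ) : ℝ) * (((h₁ + i).factorial : ℝ) ^ (2 + θ))⁻¹ *
            (Q₁.eval ((h₁ + i : ℕ) : ℝ)) ^ θ) *
          ((qL h₂).eval ((h₂ + (m - i) : ℕ) : ℝ) * (((h₂ + (m - i)).factorial : ℝ) ^ (2 + θ))⁻¹ *
            (Q₂.eval ((h₂ + (m - i) : ℕ) : ℝ)) ^ θ) := by ring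
      _ = _ := by
        rw [e1, e2]
        field_simp
  have hne : c * (n.factorial : ℝ) ^ (2 + θ) * (m.factorial : ℝ)⁻¹ * x ^ h₁ ≠ 0 := by
    have h2 : (n.factorial : ℝ) ^ (2 + θ) ≠ 0 := by positivity
    have h3 : (m.factorial : ℝ)⁻¹ ≠ 0 := by positivity
    exact mul_ne_zero (mul_ne_zero (mul_ne_zero hc h2) h3) (pow_ne_zero _ hx.ne)
  have s0 : ∑ i ∈ range (m + 1),
      ((m.choose i : ℝ) * (sideSeq θ h₁ Q₁ i * sideSeq θ h₂ Q₂ (m - i))) * x ^ i = 0 := by
    have h2 := key (fun _ => 1)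
    simp only [mul_one] at h2
    rw [o1, Finset.sum_congr rfl hterm, ← Finset.mul_sum] at h2
    exact (mul_eq_zero.1 h2.symm).resolve_left hne
  have s1 : ∑ i ∈ range (m + 1), (i : ℝ) *
      (((m.choose i : ℝ) * (sideSeq θ h₁ Q₁ i * sideSeq θ h₂ Q₂ (m - i))) * x ^ i) = 0 := by
    have h2 := key (fun k => (k : ℝ))
    have h3 : ∑ k ∈ range (n + 1), w k * q.eval (k : ℝ) * (k : ℝ) = 0 := by
      rw [← o2]
      refine Finset.sum_congr rfl (fun k _ => ?_)
      have h5 : (q * X).eval (k : ℝ) = q.eval (k : ℝ) * k := by rw [eval_mul, eval_X]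
      rw [h5]
      ring
    rw [h3] at h2
    have h4 : ∑ i ∈ range (m + 1), w (h₁ + i) * q.eval ((h₁ + i : ℕ) : ℝ) * ((h₁ + i : ℕ) : ℝ) =
        (c * (n.factorial : ℝ) ^ (2 + θ) * (m.factorial : ℝ)⁻¹ * x ^ h₁) *
          (h₁ * (∑ i ∈ range (m + 1),
            ((m.choose i : ℝ) * (sideSeq θ h₁ Q₁ i * sideSeq θ h₂ Q₂ (m - i))) * x ^ i) +
          ∑ i ∈ range (m + 1), (i : ℝ) *
      (((m.choose i : ℝ) * (sideSeq θ h₁ Q₁ i * sideSeq θ h₂ Q₂ (m - i))) * x ^ i)) := by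
      rw [Finset.mul_sum, ← Finset.sum_add_distrib, Finset.mul_sum]
      refine Finset.sum_congr rfl (fun i hi => ?_)
      rw [hterm i hi]
      push_cast
      ring
    rw [h4, s0, mul_zero, zero_add] at h2
    exact (mul_eq_zero.1 h2.symm).resolve_left hne
  exact simple_two_sided H₁ H₂ h0 h1 x hx s0 s1

/-! ### At most one outside root on each side -/

lemma sideOK_zero (m : ℕ) : SideOK 0 m 1 :=
  ⟨fun _ => rfl, fun h => absurd h (by omega), fun h => absurd h (by omega),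
    fun h => absurd h (by omega), fun h => absurd h (by omega)⟩

lemma re_add_mul_I (A B : ℝ) : ((A : ℂ) + (B : ℂ) * Complex.I).re = A := by simp

/-- one outside root: `Q(k) = k + ρ`, `ρ > 0` -/
lemma sideOK_one (m : ℕ) {ρ : ℝ} (hρ : 0 < ρ) : SideOK 1 m (X + C ρ) := by
  have hF : ∀ t : ℝ, FQ 1 (X + C ρ) (t * Complex.I) =
      ((((1 / 2 + t ^ 2) * (ρ * (1 + ρ) + t ^ 2) + t ^ 2 / 2 : ℝ) : ℂ) +
        ((t * (ρ * (1 + ρ) / 2 - 1 / 2 - t ^ 2 / 2) : ℝ) : ℂ) * Complex.I) *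
      ((((1 + t ^ 2) * (ρ ^ 2 + t ^ 2))⁻¹ : ℝ) : ℂ) := by
    intro t
    have h1 : (1 + t ^ 2) * (ρ ^ 2 + t ^ 2) ≠ 0 := by positivity
    have h2 : ((t : ℂ) * Complex.I + 1) * ((t : ℂ) * Complex.I + ρ) ≠ 0 := by
      apply mul_ne_zero
      · intro h
        have := congrArg Complex.re h
        simp at this
      · intro h
        have := congrArg Complex.re h
        simp at this
        exact hρ.ne' this
    have h3 : ((((1 + t ^ 2) * (ρ ^ 2 + t ^ 2) : ℝ)) : ℂ) ≠ 0 := by exact_mod_cast h1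
    unfold FQ
    simp only [map_add, aeval_X, aeval_C, Complex.coe_algebraMap, Nat.cast_one, add_sub_cancel_right]
    rw [Complex.ofReal_inv, ← div_eq_mul_inv, div_eq_div_iff h2 h3]
    push_cast
    have hI := Complex.I_sq
    have hI3 : Complex.I ^ 3 = -Complex.I := by rw [pow_succ, hI]; ring
    have hI4 : Complex.I ^ 4 = 1 := by rw [pow_succ, hI3]; ring_nf; rw [hI]; ring
    ring_nf
    simp only [hI, hI3, hI4]
    ring
  refine ⟨fun h => absurd h (by omega), fun _ z hz h => ?_, fun _ => ?_, fun _ t => ?_,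
    fun _ t => ?_⟩
  · simp only [map_add, aeval_X, aeval_C, Complex.coe_algebraMap] at h
    have := congrArg Complex.re h
    simp at this hz
    linarith
  · simp
    linarith
  · rw [hF t, Complex.re_mul_ofReal, re_add_mul_I]
    positivity
  · rw [hF t, ← mul_assoc, Complex.re_mul_ofReal]
    refine mul_nonneg ?_ (by positivity)
    have e : (((m : ℂ) + 1 - t * Complex.I) *
        ((((1 / 2 + t ^ 2) * (ρ * (1 + ρ) + t ^ 2) + t ^ 2 / 2 : ℝ) : ℂ) +
          ((t * (ρ * (1 + ρ) / 2 - 1 / 2 - t ^ 2 / 2) : ℝ) : ℂ) * Complex.I)).re =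
        ((m : ℝ) + 1) * ((1 / 2 + t ^ 2) * (ρ * (1 + ρ) + t ^ 2) + t ^ 2 / 2) +
          t * (t * (ρ * (1 + ρ) / 2 - 1 / 2 - t ^ 2 / 2)) := by
      simp only [Complex.mul_re, Complex.sub_re, Complex.add_re, Complex.natCast_re, Complex.one_re,
        Complex.ofReal_re, Complex.I_re, Complex.ofReal_im, Complex.I_im, Complex.sub_im,
        Complex.add_im, Complex.natCast_im, Complex.one_im, Complex.mul_im]
      ring
    rw [e]
    have hm : (0 : ℝ) ≤ m := Nat.cast_nonneg _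
    have h1 : 0 ≤ (m : ℝ) * ((1 / 2 + t ^ 2) * (ρ * (1 + ρ) + t ^ 2) + t ^ 2 / 2) := by positivity
    have h2 : ((m : ℝ) + 1) * ((1 / 2 + t ^ 2) * (ρ * (1 + ρ) + t ^ 2) + t ^ 2 / 2) +
          t * (t * (ρ * (1 + ρ) / 2 - 1 / 2 - t ^ 2 / 2)) =
        (m : ℝ) * ((1 / 2 + t ^ 2) * (ρ * (1 + ρ) + t ^ 2) + t ^ 2 / 2) +
        (t ^ 4 / 2 + t ^ 2 * (1 / 2 + 3 / 2 * (ρ * (1 + ρ))) + 1 / 2 * (ρ * (1 + ρ))) := by ring
    rw [h2]
    positivity

end Pool.Agent.PC
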